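import Pool.Agent.W2helper36.LN.Noise

set_option autoImplicit false

/-!
The final form of the estimates.
-/

open MeasureTheory Set ENNReal Metric

namespace Pool.Agent.W2helper36.LN

open Pool.Agent.H803R2.KakFTO (Vec Space lineMax)
open Pool.Agent.TH426.Kt (nb W lin Wb LMb VanOff win cb cb_ne_top nb_univ_eq)

variable {d : ℕ}

/-- The constant `A`. -/
noncomputable def AA (d : ℕ) : ℝ := ((cb d).toReal + 1) * max 1 ((vb d).toReal)⁻¹

theorem AA_pos (d : ℕ) : 0 < AA d := by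
  unfold AA
  have : (0 : ℝ) ≤ (cb d).toReal := ENNReal.toReal_nonneg
  positivity

theorem const_le {δ κ α K p : ℝ} (hδ : 0 < δ) (hκ : 0 < κ) (hK : 0 ≤ K) (hp : 1 ≤ p) (hδ1 : δ < 1) :
    cb d ^ p * ((volume (closedBall (0 : Vec d) (3 * δ)))⁻¹ *
      ENNReal.ofReal (K * (1 + Real.log (1 / δ)) ^ 2 * (3 ^ d * (δ / κ) ^ α))) ≤
    ENNReal.ofReal (AA d ^ p * K * (1 + Real.log (1 / δ)) ^ 2 * κ ^ (-α) * δ ^ (-((d : ℝ) - α))) := by
  have hvb0 := vb_ne_zero d
  have hvbt := vb_ne_top d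
  have hvr : 0 < (vb d).toReal := ENNReal.toReal_pos hvb0 hvbt
  have hlog : 0 ≤ Real.log (1 / δ) := Real.log_nonneg (by rw [le_div_iff₀ hδ]; linarith)
  set L := (1 + Real.log (1 / δ)) ^ 2 with hL
  have hL0 : 0 ≤ L := by positivity
  have hcb : cb d ^ p ≤ ENNReal.ofReal (((cb d).toReal + 1) ^ p) := by
    rw [← ENNReal.ofReal_rpow_of_pos (by positivity)]
    apply ENNReal.rpow_le_rpow _ (by linarith)
    rw [ENNReal.ofReal_add ENNReal.toReal_nonneg zero_le_one, ENNReal.ofReal_toReal (cb_ne_top d)]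
    exact le_self_add
  have hV : (volume (closedBall (0 : Vec d) (3 * δ)))⁻¹ =
      ENNReal.ofReal (((3 * δ) ^ d * (vb d).toReal)⁻¹) := by
    rw [vol_cb _ (by positivity), ENNReal.ofReal_inv_of_pos (by positivity),
      ENNReal.ofReal_mul (by positivity), ENNReal.ofReal_toReal hvbt]
  have hmax : ((vb d).toReal)⁻¹ ≤ (max 1 ((vb d).toReal)⁻¹) ^ p := by
    calc ((vb d).toReal)⁻¹ ≤ max 1 ((vb d).toReal)⁻¹ := le_max_right _ _
      _ = (max 1 ((vb d).toReal)⁻¹) ^ (1 : ℝ) := (Real.rpow_one _).symm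
      _ ≤ _ := Real.rpow_le_rpow_of_exponent_le (le_max_left _ _) hp
  calc cb d ^ p * ((volume (closedBall (0 : Vec d) (3 * δ)))⁻¹ *
        ENNReal.ofReal (K * L * (3 ^ d * (δ / κ) ^ α)))
      ≤ ENNReal.ofReal (((cb d).toReal + 1) ^ p) * (ENNReal.ofReal (((3 * δ) ^ d * (vb d).toReal)⁻¹) *
        ENNReal.ofReal (K * L * (3 ^ d * (δ / κ) ^ α))) := by
        rw [hV]
        gcongr
    _ = ENNReal.ofReal (((cb d).toReal + 1) ^ p * (((3 * δ) ^ d * (vb d).toReal)⁻¹ *
        (K * L * (3 ^ d * (δ / κ) ^ α)))) := by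
        rw [ENNReal.ofReal_mul (p := ((cb d).toReal + 1) ^ p) (by positivity),
          ENNReal.ofReal_mul (p := ((3 * δ) ^ d * (vb d).toReal)⁻¹) (by positivity)]
    _ ≤ _ := by
        apply ENNReal.ofReal_le_ofReal
        have e1 : ((3 * δ) ^ d * (vb d).toReal)⁻¹ * (K * L * (3 ^ d * (δ / κ) ^ α)) =
            ((vb d).toReal)⁻¹ * (K * L * (κ ^ (-α) * δ ^ (-((d : ℝ) - α)))) := by
          have h1 : (δ / κ) ^ α = δ ^ α * κ ^ (-α) := by
            rw [Real.div_rpow hδ.le hκ.le, Real.rpow_neg hκ.le, div_eq_mul_inv]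
          have h2 : δ ^ (-((d : ℝ) - α)) = δ ^ α * (δ ^ d)⁻¹ := by
            rw [neg_sub, sub_eq_add_neg, Real.rpow_add hδ, Real.rpow_neg hδ.le, Real.rpow_natCast]
          rw [h1, h2, mul_pow]
          field_simp
        rw [e1]
        unfold AA
        rw [Real.mul_rpow (by positivity) (by positivity)]
        calc ((cb d).toReal + 1) ^ p * (((vb d).toReal)⁻¹ * (K * L * (κ ^ (-α) * δ ^ (-((d : ℝ) - α)))))
            ≤ ((cb d).toReal + 1) ^ p * ((max 1 ((vb d).toReal)⁻¹) ^ p *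
              (K * L * (κ ^ (-α) * δ ^ (-((d : ℝ) - α))))) := by gcongr
          _ = _ := by ring

/-- The estimates for a good family. -/
theorem final {b : Vec d → Vec d} (hb : Measurable b) {H κ α K : ℝ} (hκ : 0 < κ) (hκ1 : κ ≤ 1)
    (hα : 0 ≤ α) (hαd : α ≤ d) (hKv : (vb d).toReal ≤ K)
    (h : ∀ (r t : ℝ) (y : Vec d), 0 < r → r ≤ 1 → |t| ≤ H →
      volume {v | ‖v‖ ≤ 1 ∧ ‖b v + t • v - y‖ ≤ r} ≤
        ENNReal.ofReal (K * (1 + Real.log (1 / r)) ^ 2 * (r / κ) ^ α))
    {δ : ℝ} (hδ : 0 < δ) (hδ1 : δ < 1) {p : ℝ} (hp : 1 ≤ p) :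
    LMb δ (Icc (-H) H) 1 p (ENNReal.ofReal (AA d ^ p * K * (1 + Real.log (1 / δ)) ^ 2 * κ ^ (-α) *
      δ ^ (-((d : ℝ) - α)))) (closedBall 0 1) b := by
  have hK : 0 ≤ K := ENNReal.toReal_nonneg.trans hKv
  have hlog : 0 ≤ Real.log (1 / δ) := Real.log_nonneg (by rw [le_div_iff₀ hδ]; linarith)
  have key := lmb_of_overlap hb (H := H) hδ hδ1 hp
    (Λ := ENNReal.ofReal (K * (1 + Real.log (1 / δ)) ^ 2 * (3 ^ d * (δ / κ) ^ α))) (by
      intro t ht x
      by_cases h3 : 3 * δ ≤ 1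
      · refine (h (3 * δ) t x (by positivity) h3 ht).trans (ENNReal.ofReal_le_ofReal ?_)
        have h1 : (3 * δ / κ) ^ α ≤ 3 ^ d * (δ / κ) ^ α := by
          rw [mul_div_assoc, Real.mul_rpow (by norm_num) (by positivity)]
          gcongr
          calc (3 : ℝ) ^ α ≤ (3 : ℝ) ^ (d : ℝ) :=
                Real.rpow_le_rpow_of_exponent_le (by norm_num) hαd
            _ = _ := Real.rpow_natCast _ _
        have h2 : 0 ≤ Real.log (1 / (3 * δ)) :=
          Real.log_nonneg (by rw [le_div_iff₀ (by positivity)]; linarith)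
        have h4 : Real.log (1 / (3 * δ)) ≤ Real.log (1 / δ) := by
          apply Real.log_le_log (by positivity)
          apply one_div_le_one_div_of_le hδ
          linarith
        gcongr
      · rw [not_le] at h3
        have h5 : volume {v : Vec d | ‖v‖ ≤ 1 ∧ ‖b v + t • v - x‖ ≤ 3 * δ} ≤ vb d := by
          apply measure_mono
          intro v hv
          simpa using hv.1
        refine h5.trans ?_
        rw [← ENNReal.ofReal_toReal (vb_ne_top d)]
        apply ENNReal.ofReal_le_ofReal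
        have h6 : 1 ≤ 3 ^ d * (δ / κ) ^ α := by
          have h7 : (1 / 3 : ℝ) ^ d ≤ (δ / κ) ^ α := by
            calc (1 / 3 : ℝ) ^ d = (1 / 3 : ℝ) ^ (d : ℝ) := (Real.rpow_natCast _ _).symm
              _ ≤ (1 / 3 : ℝ) ^ α :=
                  Real.rpow_le_rpow_of_exponent_ge (by norm_num) (by norm_num) hαd
              _ ≤ (δ / κ) ^ α := by
                  apply Real.rpow_le_rpow (by norm_num) _ hα
                  rw [le_div_iff₀ hκ]
                  nlinarith
          calc (1 : ℝ) = 3 ^ d * (1 / 3) ^ d := by rw [← mul_pow]; norm_num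
            _ ≤ _ := by gcongr
        have h8 : 1 ≤ (1 + Real.log (1 / δ)) ^ 2 := by nlinarith
        calc (vb d).toReal ≤ K * 1 * 1 := by linarith
          _ ≤ _ := by gcongr)
  intro f hf hfT
  refine (key f hf hfT).trans ?_
  gcongr
  exact const_le hδ hκ hK hp hδ1

/-- The constant `C`. -/
noncomputable def CC (d : ℕ) (H : ℝ) : ℝ := C1 d H + (vb d).toReal + 1

theorem CC_pos (d : ℕ) {H : ℝ} (hH : 0 ≤ H) : 0 < CC d H := by
  have h0 := C0_nonneg d hH
  have h1 : 0 ≤ C1 d H := by unfold C1; positivity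
  have h2 : 0 ≤ (vb d).toReal := ENNReal.toReal_nonneg
  unfold CC
  linarith

theorem main_overlap {Ω : Type*} [MeasurableSpace Ω] {b : Ω → Vec d → Vec d}
    (hb : Measurable (fun z : Ω × Vec d => b z.1 z.2)) {κ α : ℝ} (hκ : 0 < κ)
    (hα : 0 ≤ α) (hαd : α ≤ d) {H : ℝ} (hH : 0 ≤ H) {u : ℝ} (hu : 1 ≤ u) {ω : Ω}
    (hω : ω ∈ good b κ α H u) (r t : ℝ) (y : Vec d) (hr : 0 < r) (hr1 : r ≤ 1) (ht : |t| ≤ H) :
    volume {v | ‖v‖ ≤ 1 ∧ ‖b ω v + t • v - y‖ ≤ r} ≤
      ENNReal.ofReal (CC d H * u * (1 + Real.log (1 / r)) ^ 2 * (r / κ) ^ α) := by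
  rw [← U_eq hb]
  refine (overlap hκ hα hαd hH hu hω ht y hr hr1).trans (ENNReal.ofReal_le_ofReal ?_)
  have h2 : 0 ≤ (vb d).toReal := ENNReal.toReal_nonneg
  have h3 : C1 d H ≤ CC d H := by unfold CC; linarith
  have hlog : 0 ≤ Real.log (1 / r) := Real.log_nonneg (by rw [le_div_iff₀ hr]; linarith)
  gcongr

/-- Lower bound for the constant of every family that is close to a bush. -/
theorem sharp (hd : 1 ≤ d) {b : Vec d → Vec d} (hb : Measurable b) {κ δ K : ℝ} (hκ : 0 < κ) (hκ1 : κ ≤ 1)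
    (hδ : 0 < δ) (hδκ : δ ≤ κ) (hδ1 : δ < 1) (hbκ : ∀ v, ‖v‖ ≤ 1 → ‖b v‖ ≤ κ)
    (h : LMb δ (Icc (-1) 1) 1 1 (ENNReal.ofReal K) (closedBall 0 1) b) :
    (3 * 16 ^ d)⁻¹ * (κ ^ d)⁻¹ ≤ K := by
  have hmp := WithLp.volume_preserving_toLp (Vec d) ℝ
  have hof : Measurable (WithLp.ofLp : Space d → Vec d × ℝ) :=
    (WithLp.volume_preserving_ofLp (Vec d) ℝ).measurable
  set D : Set (Vec d × ℝ) := closedBall (0 : Vec d) (2 * κ) ×ˢ Icc 0 (κ / 8) with hD
  have hDm : MeasurableSet D := measurableSet_closedBall.prod measurableSet_Icc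
  set f : Space d → ℝ := fun y => D.indicator (fun _ => (1 : ℝ)) (WithLp.ofLp y) with hf
  have hfm : Measurable f := (measurable_const.indicator hDm).comp hof
  have hfT : VanOff (Icc (-1) 1) f := by
    intro y t ht
    rw [hf]
    simp only
    rw [indicator_of_notMem]
    intro hmem
    apply ht
    have h2 := hmem.2
    rw [mem_Icc] at h2 ⊢
    simp only at h2
    constructor <;> linarith [h2.1, h2.2]
  have key := h f hfm hfT
  simp only [one_mul, ENNReal.rpow_one] at key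
  have hvr : 0 < (vb d).toReal := ENNReal.toReal_pos (vb_ne_zero d) (vb_ne_top d)
  -- the right hand side
  have hR : ∫⁻ y, ‖f y‖ₑ = ENNReal.ofReal ((2 * κ) ^ d * (vb d).toReal * (κ / 8)) := by
    have e1 : ∫⁻ y, ‖f y‖ₑ = ∫⁻ z : Vec d × ℝ, ‖f (WithLp.toLp 2 z)‖ₑ :=
      (hmp.lintegral_comp (f := fun y : Space d => ‖f y‖ₑ) hfm.enorm).symm
    have e2 : ∀ z : Vec d × ℝ, ‖f (WithLp.toLp 2 z)‖ₑ = D.indicator 1 z := by
      intro z
      rw [hf]
      simp only
      by_cases hz : z ∈ D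
      · rw [indicator_of_mem (by exact hz), indicator_of_mem hz]
        simp
      · rw [indicator_of_notMem (by exact hz), indicator_of_notMem hz]
        simp
    rw [e1]
    simp only [e2]
    rw [lintegral_indicator_one hDm, hD, Measure.volume_eq_prod, Measure.prod_prod,
      vol_cb _ (by positivity), Real.volume_Icc, sub_zero, ENNReal.ofReal_mul (by positivity),
      ENNReal.ofReal_mul (by positivity), ENNReal.ofReal_toReal (vb_ne_top d)]
  -- the left hand side
  have hLv : ∀ v ∈ closedBall (0 : Vec d) 1,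
      ENNReal.ofReal (κ / 8 / (3 * 8 ^ d)) ≤ lineMax δ b f v := by
    intro v hv
    have hv1 : ‖v‖ ≤ 1 := by simpa using hv
    have h1 := Pool.Agent.TH426.Kt.W_le_lineMax hδ hδ1 b hv1 (J := Icc 0 (κ / 8)) (s := 0)
      (by intro t ht; rw [mem_Icc] at ht ⊢; constructor <;> linarith [ht.1, ht.2]) hfm
    have h2 : W (δ / 4) (Icc 0 (κ / 8)) (lin b) (fun p => ‖f (WithLp.toLp 2 p)‖ₑ) v =
        ENNReal.ofReal (κ / 8) := by
      unfold W
      have h3 : ∀ t ∈ Icc 0 (κ / 8), ∫⁻ w, ‖f (WithLp.toLp 2 (lin b v t + w, t))‖ₑ ∂(nb d (δ / 4)) = 1 := by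
        intro t ht
        rw [mem_Icc] at ht
        rw [Pool.Agent.TH426.Kt.lintegral_nb]
        have h4 : ∫⁻ w in closedBall (0 : Vec d) (δ / 4), ‖f (WithLp.toLp 2 (lin b v t + w, t))‖ₑ =
            ∫⁻ w in closedBall (0 : Vec d) (δ / 4), 1 := by
          apply setLIntegral_congr_fun measurableSet_closedBall
          intro w hw
          rw [mem_closedBall, dist_zero_right] at hw
          rw [hf]
          simp only
          rw [indicator_of_mem]
          · simp
          · rw [hD]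
            refine ⟨?_, ht⟩
            simp only
            rw [mem_closedBall, dist_zero_right]
            unfold lin
            calc ‖b v + t • v + w‖ ≤ ‖b v + t • v‖ + ‖w‖ := norm_add_le _ _
              _ ≤ ‖b v‖ + ‖t • v‖ + ‖w‖ := by gcongr; exact norm_add_le _ _
              _ ≤ κ + κ / 8 * 1 + δ / 4 := by
                  gcongr
                  · exact hbκ v hv1
                  · rw [norm_smul, Real.norm_eq_abs, abs_of_nonneg ht.1]
                    exact mul_le_mul ht.2 hv1 (norm_nonneg _) (by positivity)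
              _ ≤ 2 * κ := by linarith
        rw [h4, setLIntegral_one]
        apply ENNReal.inv_mul_cancel
        · exact (measure_closedBall_pos volume (0 : Vec d) (by positivity)).ne'
        · exact measure_closedBall_lt_top.ne
      rw [setLIntegral_congr_fun measurableSet_Icc h3, setLIntegral_one, Real.volume_Icc, sub_zero]
    rw [h2] at h1
    rw [ENNReal.ofReal_div_of_pos (by positivity)]
    apply ENNReal.div_le_of_le_mul
    refine h1.trans (le_of_eq ?_)
    rw [mul_comm]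
    congr 1
    rw [ENNReal.ofReal_mul (by norm_num), ENNReal.ofReal_pow (by norm_num)]
    simp
  have hLow : ENNReal.ofReal (κ / 8 / (3 * 8 ^ d) * (vb d).toReal) ≤
      ∫⁻ v in closedBall (0 : Vec d) 1, lineMax δ b f v := by
    calc ENNReal.ofReal (κ / 8 / (3 * 8 ^ d) * (vb d).toReal)
        = ∫⁻ _v in closedBall (0 : Vec d) 1, ENNReal.ofReal (κ / 8 / (3 * 8 ^ d)) := by
          rw [setLIntegral_const, ENNReal.ofReal_mul (by positivity),
            ENNReal.ofReal_toReal (vb_ne_top d)]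
          rfl
      _ ≤ _ := setLIntegral_mono' measurableSet_closedBall hLv
  have hfin := hLow.trans key
  rw [hR] at hfin
  by_cases hK : K ≤ 0
  · rw [ENNReal.ofReal_of_nonpos hK, zero_mul] at hfin
    have h0 : 0 < κ / 8 / (3 * 8 ^ d) * (vb d).toReal := by positivity
    have := (ENNReal.ofReal_pos.2 h0).trans_le hfin
    exact absurd this (lt_irrefl _)
  · rw [not_le] at hK
    rw [← ENNReal.ofReal_mul hK.le, ENNReal.ofReal_le_ofReal_iff (by positivity)] at hfin
    have e : (3 * 16 ^ d : ℝ)⁻¹ * (κ ^ d)⁻¹ * ((2 * κ) ^ d * (vb d).toReal * (κ / 8)) =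
        κ / 8 / (3 * 8 ^ d) * (vb d).toReal := by
      have h16 : (16 : ℝ) ^ d = 8 ^ d * 2 ^ d := by rw [← mul_pow]; norm_num
      rw [h16, mul_pow]
      field_simp
    rw [← e] at hfin
    exact le_of_mul_le_mul_right hfin (by positivity)

end Pool.Agent.W2helper36.LN
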