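import Pool.Agent.W2helper36.LN.Seq

set_option autoImplicit false

/-!
The integral of the kernel.
-/

open MeasureTheory Set ENNReal Metric

namespace Pool.Agent.W2helper36.LN

open Pool.Agent.H803R2.KakFTO (Vec)

variable {d : ℕ}

/-- Volume of the unit ball. -/
noncomputable def vb (d : ℕ) : ℝ≥0∞ := volume (closedBall (0 : Vec d) 1)

theorem vb_ne_top (d : ℕ) : vb d ≠ ∞ := measure_closedBall_lt_top.ne

theorem vb_ne_zero (d : ℕ) : vb d ≠ 0 := (measure_closedBall_pos volume (0 : Vec d) one_pos).ne'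

theorem vol_cb (u : Vec d) {r : ℝ} (hr : 0 ≤ r) :
    volume (closedBall u r) = ENNReal.ofReal (r ^ d) * vb d := by
  have := Measure.addHaar_closedBall' (volume : Measure (Vec d)) u hr
  rw [finrank_euclideanSpace_fin] at this
  exact this

theorem shell (u : Vec d) {κ α : ℝ} (hκ : 0 < κ) (hα : 0 ≤ α) (hαd : α ≤ d) {R : ℝ}
    (hR : 0 ≤ R) (i : ℕ) :
    ∫⁻ v in closedBall u ((1 / 2) ^ i), kk R κ α ‖v - u‖ ≤
      ENNReal.ofReal ((2 * R / κ) ^ α) * vb d +
        ∫⁻ v in closedBall u ((1 / 2) ^ (i + 1)), kk R κ α ‖v - u‖ := by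
  have hs : closedBall u ((1 / 2 : ℝ) ^ i) ⊆
      (closedBall u ((1 / 2 : ℝ) ^ i) \ closedBall u ((1 / 2 : ℝ) ^ (i + 1))) ∪
        closedBall u ((1 / 2 : ℝ) ^ (i + 1)) := by
    intro v hv
    by_cases h : v ∈ closedBall u ((1 / 2 : ℝ) ^ (i + 1))
    · exact Or.inr h
    · exact Or.inl ⟨hv, h⟩
  refine (lintegral_mono_set hs).trans ((lintegral_union_le _ _ _).trans ?_)
  refine add_le_add_left ?_ _
  have hp : (0 : ℝ) < (1 / 2) ^ (i + 1) := by positivity
  have hp1 : (1 / 2 : ℝ) ^ (i + 1) ≤ 1 := pow_le_one₀ (by norm_num) (by norm_num)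
  calc ∫⁻ v in closedBall u ((1 / 2 : ℝ) ^ i) \ closedBall u ((1 / 2 : ℝ) ^ (i + 1)), kk R κ α ‖v - u‖
      ≤ ∫⁻ v in closedBall u ((1 / 2 : ℝ) ^ i) \ closedBall u ((1 / 2 : ℝ) ^ (i + 1)),
          ENNReal.ofReal ((R / (κ * (1 / 2) ^ (i + 1))) ^ α) := by
        apply setLIntegral_mono' (measurableSet_closedBall.diff measurableSet_closedBall)
        intro v hv
        apply kk_le hR hκ hα hp _ hp1
        have := hv.2
        rw [mem_closedBall, dist_eq_norm, not_le] at this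
        exact this.le
    _ = ENNReal.ofReal ((R / (κ * (1 / 2) ^ (i + 1))) ^ α) *
          volume (closedBall u ((1 / 2 : ℝ) ^ i) \ closedBall u ((1 / 2 : ℝ) ^ (i + 1))) := by
        rw [setLIntegral_const]
    _ ≤ ENNReal.ofReal ((R / (κ * (1 / 2) ^ (i + 1))) ^ α) *
          (ENNReal.ofReal (((1 / 2 : ℝ) ^ i) ^ d) * vb d) := by
        gcongr
        rw [← vol_cb u (by positivity)]
        exact measure_mono diff_subset
    _ = ENNReal.ofReal ((R / (κ * (1 / 2) ^ (i + 1))) ^ α * ((1 / 2 : ℝ) ^ i) ^ d) * vb d := by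
        rw [ENNReal.ofReal_mul (by positivity), mul_assoc]
    _ ≤ ENNReal.ofReal ((2 * R / κ) ^ α) * vb d := by
        gcongr
        have hq : (0 : ℝ) < (1 / 2) ^ i := by positivity
        have e : R / (κ * (1 / 2) ^ (i + 1)) = 2 * R / κ * ((1 / 2) ^ i)⁻¹ := by
          rw [pow_succ]
          field_simp
        rw [e, Real.mul_rpow (by positivity) (by positivity), Real.inv_rpow hq.le, mul_assoc]
        have h1 : (((1 / 2 : ℝ) ^ i) ^ α)⁻¹ * ((1 / 2 : ℝ) ^ i) ^ d ≤ 1 := by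
          rw [inv_mul_le_iff₀ (by positivity), mul_one, ← Real.rpow_natCast ((1 / 2 : ℝ) ^ i) d]
          apply Real.rpow_le_rpow_of_exponent_ge hq _ hαd
          exact pow_le_one₀ (by norm_num) (by norm_num)
        calc _ ≤ (2 * R / κ) ^ α * 1 := by gcongr
          _ = _ := mul_one _

theorem shells (u : Vec d) {κ α : ℝ} (hκ : 0 < κ) (hα : 0 ≤ α) (hαd : α ≤ d) {R : ℝ}
    (hR : 0 ≤ R) (k : ℕ) :
    ∫⁻ v in closedBall u 1, kk R κ α ‖v - u‖ ≤
      (k : ℝ≥0∞) * (ENNReal.ofReal ((2 * R / κ) ^ α) * vb d) +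
        ∫⁻ v in closedBall u ((1 / 2) ^ k), kk R κ α ‖v - u‖ := by
  induction k with
  | zero => simp
  | succ k ih =>
    refine ih.trans ?_
    calc _ ≤ (k : ℝ≥0∞) * (ENNReal.ofReal ((2 * R / κ) ^ α) * vb d) +
          (ENNReal.ofReal ((2 * R / κ) ^ α) * vb d +
            ∫⁻ v in closedBall u ((1 / 2) ^ (k + 1)), kk R κ α ‖v - u‖) := by
          gcongr
          exact shell u hκ hα hαd hR k
      _ = _ := by
          push_cast
          ring

/-- The bound in the sequential estimate. -/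
noncomputable def SS (d : ℕ) (κ α : ℝ) (k : ℕ) : ℝ≥0∞ :=
  ((k : ℝ≥0∞) + 2) * (ENNReal.ofReal ((6 * (1 / 2) ^ k / κ) ^ α) * vb d)

theorem int_kk (u : Vec d) {κ α : ℝ} (hκ : 0 < κ) (hκ1 : κ ≤ 1) (hα : 0 ≤ α) (hαd : α ≤ d) (k : ℕ) :
    ∫⁻ v in closedBall (0 : Vec d) 1, kk (3 * (1 / 2) ^ k) κ α ‖v - u‖ ≤ SS d κ α k := by
  set R : ℝ := 3 * (1 / 2) ^ k with hRdef
  have hp : (0 : ℝ) < (1 / 2) ^ k := by positivity
  have hp1 : (1 / 2 : ℝ) ^ k ≤ 1 := pow_le_one₀ (by norm_num) (by norm_num)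
  have hR : 0 ≤ R := by positivity
  have h6 : 2 * R / κ = 6 * (1 / 2) ^ k / κ := by rw [hRdef]; ring
  have hs : closedBall (0 : Vec d) 1 ⊆ (closedBall (0 : Vec d) 1 \ closedBall u 1) ∪ closedBall u 1 := by
    intro v hv
    by_cases h : v ∈ closedBall u 1
    · exact Or.inr h
    · exact Or.inl ⟨hv, h⟩
  have h1 : ∫⁻ v in closedBall (0 : Vec d) 1 \ closedBall u 1, kk R κ α ‖v - u‖ ≤
      ENNReal.ofReal ((6 * (1 / 2) ^ k / κ) ^ α) * vb d := by
    calc ∫⁻ v in closedBall (0 : Vec d) 1 \ closedBall u 1, kk R κ α ‖v - u‖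
        ≤ ∫⁻ v in closedBall (0 : Vec d) 1 \ closedBall u 1, ENNReal.ofReal ((R / (κ * 1)) ^ α) := by
          apply setLIntegral_mono' (measurableSet_closedBall.diff measurableSet_closedBall)
          intro v hv
          apply kk_le hR hκ hα one_pos _ le_rfl
          have := hv.2
          rw [mem_closedBall, dist_eq_norm, not_le] at this
          exact this.le
      _ = ENNReal.ofReal ((R / (κ * 1)) ^ α) * volume (closedBall (0 : Vec d) 1 \ closedBall u 1) := by
          rw [setLIntegral_const]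
      _ ≤ _ := by
          have hm : volume (closedBall (0 : Vec d) 1 \ closedBall u 1) ≤ vb d :=
            measure_mono diff_subset
          have hr : (R / (κ * 1)) ^ α ≤ (6 * (1 / 2) ^ k / κ) ^ α := by
            rw [mul_one, hRdef]
            apply Real.rpow_le_rpow (by positivity) _ hα
            gcongr
            norm_num
          exact mul_le_mul' (ENNReal.ofReal_le_ofReal hr) hm
  have h2 : ∫⁻ v in closedBall u ((1 / 2) ^ k), kk R κ α ‖v - u‖ ≤
      ENNReal.ofReal ((6 * (1 / 2) ^ k / κ) ^ α) * vb d := by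
    calc ∫⁻ v in closedBall u ((1 / 2) ^ k), kk R κ α ‖v - u‖
        ≤ ∫⁻ v in closedBall u ((1 / 2) ^ k), 1 := lintegral_mono fun v => kk_le_one _ _ _ _
      _ = ENNReal.ofReal (((1 / 2 : ℝ) ^ k) ^ d) * vb d := by
          rw [setLIntegral_one, vol_cb u hp.le]
      _ ≤ _ := by
          gcongr
          calc ((1 / 2 : ℝ) ^ k) ^ d ≤ ((1 / 2 : ℝ) ^ k) ^ α := by
                rw [← Real.rpow_natCast ((1 / 2 : ℝ) ^ k) d]
                exact Real.rpow_le_rpow_of_exponent_ge hp hp1 hαd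
            _ ≤ _ := by
                apply Real.rpow_le_rpow hp.le _ hα
                rw [le_div_iff₀ hκ]
                nlinarith
  refine (lintegral_mono_set hs).trans ((lintegral_union_le _ _ _).trans ?_)
  calc _ ≤ ENNReal.ofReal ((6 * (1 / 2) ^ k / κ) ^ α) * vb d +
        ((k : ℝ≥0∞) * (ENNReal.ofReal ((2 * R / κ) ^ α) * vb d) +
          ENNReal.ofReal ((6 * (1 / 2) ^ k / κ) ^ α) * vb d) := by
        gcongr
        exact (shells u hκ hα hαd hR k).trans (add_le_add_right h2 _)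
    _ = _ := by
        rw [h6]
        unfold SS
        ring

variable {Ω : Type*} [MeasurableSpace Ω]

/-- The measure of the set of the lines that pass within `R` of the point `y` of height `-τ`. -/
noncomputable def U (b : Ω → Vec d → Vec d) (R τ : ℝ) (y : Vec d) (ω : Ω) : ℝ≥0∞ :=
  Z volume (aa b R τ y) ω

/-- **Moments of the multiplicity function.** -/
theorem moments {P : Measure Ω} [SFinite P] {b : Ω → Vec d → Vec d}
    (hb : Measurable (fun z : Ω × Vec d => b z.1 z.2)) {κ α : ℝ} (hκ : 0 < κ) (hκ1 : κ ≤ 1)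
    (hα : 0 ≤ α) (hαd : α ≤ d) (hL : LND P κ α b) (k : ℕ) (τ : ℝ) (y : Vec d) (m : ℕ) :
    ∫⁻ ω, U b (3 * (1 / 2) ^ k) τ y ω ^ (m + 1) ∂P ≤
      SS d κ α k ^ m * (m.factorial : ℝ≥0∞) * ∫⁻ ω, U b (3 * (1 / 2) ^ k) τ y ω ∂P := by
  have hR : (0 : ℝ) < 3 * (1 / 2) ^ k := by positivity
  apply mom P volume (measurable_aa hb _ τ y)
  intro l u
  calc _ ≤ ∫⁻ v, (closedBall (0 : Vec d) 1).indicator
            (fun v => ∑ i, kk (3 * (1 / 2) ^ k) κ α ‖v - u i‖) v *
          ∫⁻ ω, ∏ i, aa b (3 * (1 / 2) ^ k) τ y (u i) ω ∂P := by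
        apply lintegral_mono
        intro v
        exact seq_pt hb hL hR τ y l u v
    _ = (∫⁻ v in closedBall (0 : Vec d) 1, ∑ i, kk (3 * (1 / 2) ^ k) κ α ‖v - u i‖) *
          ∫⁻ ω, ∏ i, aa b (3 * (1 / 2) ^ k) τ y (u i) ω ∂P := by
        rw [lintegral_mul_const, lintegral_indicator measurableSet_closedBall]
        apply Measurable.indicator _ measurableSet_closedBall
        apply Finset.measurable_fun_sum
        intro i _
        exact (measurable_kk _ _ _).comp (measurable_id.sub_const _).norm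
    _ ≤ _ := by
        gcongr
        rw [lintegral_finsetSum]
        · calc _ ≤ ∑ i : Fin (l + 1), SS d κ α k := by
                apply Finset.sum_le_sum
                intro i _
                exact int_kk (u i) hκ hκ1 hα hαd k
            _ = _ := by simp
        · intro i _
          exact (measurable_kk _ _ _).comp (measurable_id.sub_const _).norm

end Pool.Agent.W2helper36.LN
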