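import Pool.Agent.W2helper36.LN.Scales

set_option autoImplicit false

/-!
From the multiplicity to the maximal function.
-/

open MeasureTheory Set ENNReal Metric

namespace Pool.Agent.W2helper36.LN

open Pool.Agent.H803R2.KakFTO (Vec Space lineMax)
open Pool.Agent.TH426.Kt (nb W lin Wb LMb VanOff win cb jensen lintegral_nb nb_univ measurable_lin)

variable {d : ℕ}

theorem slice {r : ℝ} {B : Set (Vec d)} {L : Vec d → Vec d} (hL : Measurable L)
    {G : Vec d → ℝ≥0∞} (hG : Measurable G) {Λ : ℝ≥0∞}
    (h : ∀ x, volume ({v | ‖L v - x‖ ≤ r} ∩ B) ≤ Λ) :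
    ∫⁻ v in B, ∫⁻ w, G (L v + w) ∂(nb d r) ≤
      (volume (closedBall (0 : Vec d) r))⁻¹ * Λ * ∫⁻ x, G x := by
  set V := volume (closedBall (0 : Vec d) r) with hV
  have hind : ∀ v, ∫⁻ w, G (L v + w) ∂(nb d r) =
      V⁻¹ * ∫⁻ x, (closedBall (0 : Vec d) r).indicator (fun _ => 1) (L v - x) * G x := by
    intro v
    rw [lintegral_nb]
    congr 1
    rw [← lintegral_indicator measurableSet_closedBall,
      ← lintegral_add_left_eq_self (fun x => (closedBall (0 : Vec d) r).indicator
        (fun _ => (1 : ℝ≥0∞)) (L v - x) * G x) (L v)]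
    apply lintegral_congr
    intro w
    have e : L v - (L v + w) = -w := by abel
    rw [e]
    by_cases hw : w ∈ closedBall (0 : Vec d) r
    · rw [indicator_of_mem hw, indicator_of_mem, one_mul]
      simpa using hw
    · rw [indicator_of_notMem hw, indicator_of_notMem, zero_mul]
      simpa using hw
  have hVm : Measurable (fun q : Vec d × Vec d =>
      (closedBall (0 : Vec d) r).indicator (fun _ => (1 : ℝ≥0∞)) (L q.1 - q.2) * G q.2) := by
    apply Measurable.mul
    · exact (measurable_const.indicator measurableSet_closedBall).comp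
        ((hL.comp measurable_fst).sub measurable_snd)
    · exact hG.comp measurable_snd
  have hx : ∀ x, ∫⁻ v in B, (closedBall (0 : Vec d) r).indicator (fun _ => (1 : ℝ≥0∞)) (L v - x) ≤ Λ := by
    intro x
    have hm : MeasurableSet {v | ‖L v - x‖ ≤ r} :=
      measurableSet_le (hL.sub_const x).norm measurable_const
    calc ∫⁻ v in B, (closedBall (0 : Vec d) r).indicator (fun _ => (1 : ℝ≥0∞)) (L v - x)
        = ∫⁻ v in B, {v | ‖L v - x‖ ≤ r}.indicator 1 v := by
          apply lintegral_congr
          intro v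
          by_cases hv : ‖L v - x‖ ≤ r
          · rw [indicator_of_mem (by simpa using hv), indicator_of_mem (by exact hv)]
            rfl
          · rw [indicator_of_notMem (by simpa using hv), indicator_of_notMem (by exact hv)]
      _ = volume ({v | ‖L v - x‖ ≤ r} ∩ B) := by
          rw [lintegral_indicator_one hm, Measure.restrict_apply hm]
      _ ≤ Λ := h x
  calc ∫⁻ v in B, ∫⁻ w, G (L v + w) ∂(nb d r)
      = ∫⁻ v in B, V⁻¹ * ∫⁻ x, (closedBall (0 : Vec d) r).indicator (fun _ => 1) (L v - x) * G x := by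
        simp only [hind]
    _ = V⁻¹ * ∫⁻ v in B, ∫⁻ x, (closedBall (0 : Vec d) r).indicator (fun _ => 1) (L v - x) * G x := by
        rw [lintegral_const_mul]
        exact hVm.lintegral_prod_right'
    _ = V⁻¹ * ∫⁻ x, ∫⁻ v in B, (closedBall (0 : Vec d) r).indicator (fun _ => 1) (L v - x) * G x := by
        congr 1
        exact lintegral_lintegral_swap hVm.aemeasurable
    _ = V⁻¹ * ∫⁻ x, (∫⁻ v in B, (closedBall (0 : Vec d) r).indicator (fun _ => 1) (L v - x)) * G x := by
        congr 1
        apply lintegral_congr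
        intro x
        rw [lintegral_mul_const]
        exact (measurable_const.indicator measurableSet_closedBall).comp (hL.sub_const x)
    _ ≤ V⁻¹ * ∫⁻ x, Λ * G x := by
        gcongr with x
        exact hx x
    _ = _ := by
        rw [lintegral_const_mul _ hG, mul_assoc]

theorem wb_of_overlap {b : Vec d → Vec d} (hb : Measurable b) {B : Set (Vec d)} {r : ℝ} {J : Set ℝ}
    (hJm : MeasurableSet J) (hJ1 : volume J ≤ 1) {p : ℝ} (hp : 1 ≤ p) {Λ : ℝ≥0∞}
    (h : ∀ t ∈ J, ∀ x, volume ({v | ‖lin b v t - x‖ ≤ r} ∩ B) ≤ Λ) :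
    Wb r J 1 p ((volume (closedBall (0 : Vec d) r))⁻¹ * Λ) B b := by
  intro g hg
  have hlin := measurable_lin hb
  rw [one_mul]
  have hgp : Measurable (fun z : Vec d × ℝ => g z ^ p) := hg.pow_const p
  have hm3 : Measurable (fun q : (Vec d × ℝ) × Vec d => g (lin b q.1.1 q.1.2 + q.2, q.1.2) ^ p) := by
    have h1 : Measurable (fun q : (Vec d × ℝ) × Vec d =>
        ((lin b q.1.1 q.1.2 + q.2, q.1.2) : Vec d × ℝ)) := by
      have h2 : Measurable (fun q : (Vec d × ℝ) × Vec d => lin b q.1.1 q.1.2) := by
        have h3 : Measurable (fun q : (Vec d × ℝ) × Vec d => q.1) := measurable_fst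
        have h0 := hlin.comp h3
        exact h0
      exact (h2.add measurable_snd).prodMk (measurable_snd.comp measurable_fst)
    have h0 := hgp.comp h1
    exact h0
  have hm2 : Measurable (fun q : Vec d × ℝ => ∫⁻ w, g (lin b q.1 q.2 + w, q.2) ^ p ∂(nb d r)) :=
    hm3.lintegral_prod_right'
  have hlv : ∀ v, Measurable (fun t => lin b v t) := fun v => hlin.comp measurable_prodMk_left
  have hpt : ∀ v, W r J (lin b) g v ^ p ≤ ∫⁻ t in J, ∫⁻ w, g (lin b v t + w, t) ^ p ∂(nb d r) := by
    intro v
    unfold W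
    have hav : Measurable (fun t => ∫⁻ w, g (lin b v t + w, t) ∂(nb d r)) :=
      Pool.Agent.TH426.Kt.measurable_avg (hlv v) hg
    refine (jensen (volume.restrict J) (by rw [Measure.restrict_apply_univ]; exact hJ1) hp
      hav.aemeasurable).trans ?_
    apply lintegral_mono
    intro t
    apply jensen _ (nb_univ d r) hp
    apply Measurable.aemeasurable
    have h1 : Measurable (fun w : Vec d => ((lin b v t + w, t) : Vec d × ℝ)) :=
      (measurable_const.add measurable_id).prodMk measurable_const
    have h0 := hg.comp h1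
    exact h0
  calc ∫⁻ v in B, W r J (lin b) g v ^ p
      ≤ ∫⁻ v in B, ∫⁻ t in J, ∫⁻ w, g (lin b v t + w, t) ^ p ∂(nb d r) := lintegral_mono hpt
    _ = ∫⁻ t in J, ∫⁻ v in B, ∫⁻ w, g (lin b v t + w, t) ^ p ∂(nb d r) :=
        lintegral_lintegral_swap hm2.aemeasurable
    _ ≤ ∫⁻ t in J, (volume (closedBall (0 : Vec d) r))⁻¹ * Λ * ∫⁻ x, g (x, t) ^ p := by
        apply setLIntegral_mono' hJm
        intro t ht
        have hLm : Measurable (fun v => lin b v t) := by
          have h1 : Measurable (fun v : Vec d => ((v, t) : Vec d × ℝ)) :=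
            measurable_id.prodMk measurable_const
          have h0 := hlin.comp h1
          exact h0
        have hGm : Measurable (fun x : Vec d => g (x, t) ^ p) := by
          have h1 : Measurable (fun v : Vec d => ((v, t) : Vec d × ℝ)) :=
            measurable_id.prodMk measurable_const
          have h0 := hgp.comp h1
          exact h0
        exact slice hLm hGm (h t ht)
    _ = _ := by
        rw [ENNReal.rpow_one, lintegral_const_mul]
        have hm4 : Measurable (fun q : ℝ × Vec d => g (q.2, q.1) ^ p) := by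
          have h1 : Measurable (fun q : ℝ × Vec d => ((q.2, q.1) : Vec d × ℝ)) :=
            measurable_snd.prodMk measurable_fst
          have h0 := hgp.comp h1
          exact h0
        exact hm4.lintegral_prod_right'

theorem vol_win (T : Set ℝ) (k : ℤ) : volume (win T k) ≤ 1 := by
  unfold win
  refine (measure_mono inter_subset_left).trans ?_
  rw [Real.volume_Ico]
  have : ((k : ℝ) + 1) / 4 - (k : ℝ) / 4 = 1 / 4 := by ring
  rw [this, ENNReal.ofReal_le_one]
  norm_num

/-- **Maximal estimate from the multiplicity.** -/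
theorem lmb_of_overlap {b : Vec d → Vec d} (hb : Measurable b) {H δ : ℝ} (hδ : 0 < δ) (hδ1 : δ < 1)
    {p : ℝ} (hp : 1 ≤ p) {Λ : ℝ≥0∞}
    (h : ∀ t : ℝ, |t| ≤ H → ∀ x, volume {v | ‖v‖ ≤ 1 ∧ ‖b v + t • v - x‖ ≤ 3 * δ} ≤ Λ) :
    LMb δ (Icc (-H) H) 1 p (cb d ^ p * ((volume (closedBall (0 : Vec d) (3 * δ)))⁻¹ * Λ))
      (closedBall 0 1) b := by
  have hT : MeasurableSet (Icc (-H) H) := measurableSet_Icc
  have key := Pool.Agent.TH426.Kt.LMb_of_Wb hδ hδ1 hT (l := 1) (p := p) le_rfl (by linarith)
    (C := (volume (closedBall (0 : Vec d) (3 * δ)))⁻¹ * Λ) (B := closedBall (0 : Vec d) 1)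
    measurableSet_closedBall subset_rfl hb (b' := b) (fun v _ => by simpa using hδ.le)
    (fun k => wb_of_overlap hb (Pool.Agent.TH426.Kt.measurableSet_win hT k) (vol_win _ k) hp
      (fun t ht x => by
        have ht' : |t| ≤ H := abs_le.2 (mem_Icc.1 ht.2)
        refine le_trans (le_of_eq ?_) (h t ht' x)
        congr 1
        ext v
        simp only [mem_inter_iff, mem_setOf_eq, mem_closedBall, dist_zero_right, lin]
        exact and_comm))
  rw [one_mul] at key
  exact key

end Pool.Agent.W2helper36.LN
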