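import Mathlib

set_option autoImplicit false

/-!
Moments of the occupation of a set by a random field, from a sequential bound.
-/

open MeasureTheory Set ENNReal

namespace Pool.Agent.W2helper36.LN

variable {Ω V : Type*} [MeasurableSpace Ω] [MeasurableSpace V]

/-- The total mass. -/
noncomputable def Z (ν : Measure V) (a : V → Ω → ℝ≥0∞) (ω : Ω) : ℝ≥0∞ := ∫⁻ v, a v ω ∂ν

theorem measurable_Z {ν : Measure V} [SFinite ν] {a : V → Ω → ℝ≥0∞}
    (ha : Measurable (Function.uncurry a)) : Measurable (Z ν a) := by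
  unfold Z
  exact ha.lintegral_prod_left'

theorem measurable_prod {a : V → Ω → ℝ≥0∞} (ha : Measurable (Function.uncurry a)) {k : ℕ}
    (u : Fin k → V) : Measurable (fun ω => ∏ i, a (u i) ω) := by
  apply Finset.measurable_fun_prod
  intro i _
  exact ha.comp (measurable_const.prodMk measurable_id)

theorem prod_cons (a : V → Ω → ℝ≥0∞) {k : ℕ} (v : V) (u : Fin k → V) (ω : Ω) :
    ∏ i, a ((Fin.cons v u : Fin (k + 1) → V) i) ω = a v ω * ∏ i, a (u i) ω := by
  rw [Fin.prod_univ_succ]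
  rfl

theorem measurable_sec {a : V → Ω → ℝ≥0∞} (ha : Measurable (Function.uncurry a)) (ω : Ω) :
    Measurable (fun v => a v ω) := ha.comp (measurable_id.prodMk measurable_const)

theorem mom_step (P : Measure Ω) [SFinite P] (ν : Measure V) [SFinite ν] {a : V → Ω → ℝ≥0∞}
    (ha : Measurable (Function.uncurry a)) {S : ℝ≥0∞}
    (H : ∀ (k : ℕ) (u : Fin (k + 1) → V),
      ∫⁻ v, ∫⁻ ω, a v ω * ∏ i, a (u i) ω ∂P ∂ν ≤ ((k + 1 : ℕ) : ℝ≥0∞) * S * ∫⁻ ω, ∏ i, a (u i) ω ∂P)
    (m : ℕ) : ∀ (k : ℕ) (u : Fin (k + 1) → V),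
      ∫⁻ ω, (∏ i, a (u i) ω) * Z ν a ω ^ m ∂P ≤
        S ^ m * ((k + 1).ascFactorial m : ℝ≥0∞) * ∫⁻ ω, ∏ i, a (u i) ω ∂P := by
  induction m with
  | zero =>
    intro k u
    simp
  | succ m ih =>
    intro k u
    have hm : Measurable (fun p : Ω × V => (∏ i, a (u i) p.1) * Z ν a p.1 ^ m * a p.2 p.1) := by
      apply Measurable.mul
      · exact ((measurable_prod ha u).comp measurable_fst).mul
          (((measurable_Z ha).comp measurable_fst).pow_const _)
      · exact ha.comp (measurable_snd.prodMk measurable_fst)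
    calc ∫⁻ ω, (∏ i, a (u i) ω) * Z ν a ω ^ (m + 1) ∂P
        = ∫⁻ ω, ∫⁻ v, (∏ i, a (u i) ω) * Z ν a ω ^ m * a v ω ∂ν ∂P := by
          apply lintegral_congr
          intro ω
          rw [lintegral_const_mul _ (measurable_sec ha ω), pow_succ, mul_assoc]
          rfl
      _ = ∫⁻ v, ∫⁻ ω, (∏ i, a (u i) ω) * Z ν a ω ^ m * a v ω ∂P ∂ν :=
          lintegral_lintegral_swap hm.aemeasurable
      _ = ∫⁻ v, ∫⁻ ω, (∏ i, a ((Fin.cons v u : Fin (k + 2) → V) i) ω) * Z ν a ω ^ m ∂P ∂ν := by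
          apply lintegral_congr
          intro v
          apply lintegral_congr
          intro ω
          rw [prod_cons]
          ring
      _ ≤ ∫⁻ v, S ^ m * ((k + 2).ascFactorial m : ℝ≥0∞) *
            ∫⁻ ω, ∏ i, a ((Fin.cons v u : Fin (k + 2) → V) i) ω ∂P ∂ν := by
          apply lintegral_mono
          intro v
          exact ih (k + 1) (Fin.cons v u)
      _ = S ^ m * ((k + 2).ascFactorial m : ℝ≥0∞) * ∫⁻ v, ∫⁻ ω, a v ω * ∏ i, a (u i) ω ∂P ∂ν := by
          rw [← lintegral_const_mul]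
          · apply lintegral_congr
            intro v
            congr 1
            apply lintegral_congr
            intro ω
            rw [prod_cons]
          · have : Measurable (fun p : V × Ω => a p.1 p.2 * ∏ i, a (u i) p.2) :=
              ha.mul ((measurable_prod ha u).comp measurable_snd)
            exact this.lintegral_prod_right'
      _ ≤ S ^ m * ((k + 2).ascFactorial m : ℝ≥0∞) *
            (((k + 1 : ℕ) : ℝ≥0∞) * S * ∫⁻ ω, ∏ i, a (u i) ω ∂P) := by
          gcongr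
          exact H k u
      _ = S ^ (m + 1) * ((k + 1).ascFactorial (m + 1) : ℝ≥0∞) * ∫⁻ ω, ∏ i, a (u i) ω ∂P := by
          have e : ((k + 1).ascFactorial (m + 1) : ℝ≥0∞) =
              ((k + 1 : ℕ) : ℝ≥0∞) * ((k + 2).ascFactorial m : ℝ≥0∞) := by
            rw [← Nat.cast_mul]
            congr 1
            have := Nat.succ_ascFactorial (k + 1) m
            have h2 := Nat.ascFactorial_succ (n := k + 1) (k := m)
            have h3 : (k + 1).succ = k + 2 := rfl
            rw [h3] at this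
            rw [h2]
            linarith
          rw [e, pow_succ]
          ring

/-- **Moment bound.** -/
theorem mom (P : Measure Ω) [SFinite P] (ν : Measure V) [SFinite ν] {a : V → Ω → ℝ≥0∞}
    (ha : Measurable (Function.uncurry a)) {S : ℝ≥0∞}
    (H : ∀ (k : ℕ) (u : Fin (k + 1) → V),
      ∫⁻ v, ∫⁻ ω, a v ω * ∏ i, a (u i) ω ∂P ∂ν ≤ ((k + 1 : ℕ) : ℝ≥0∞) * S * ∫⁻ ω, ∏ i, a (u i) ω ∂P)
    (m : ℕ) :
    ∫⁻ ω, Z ν a ω ^ (m + 1) ∂P ≤ S ^ m * (m.factorial : ℝ≥0∞) * ∫⁻ ω, Z ν a ω ∂P := by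
  have hm : Measurable (fun p : Ω × V => a p.2 p.1 * Z ν a p.1 ^ m) := by
    apply Measurable.mul
    · exact ha.comp (measurable_snd.prodMk measurable_fst)
    · exact ((measurable_Z ha).comp measurable_fst).pow_const _
  calc ∫⁻ ω, Z ν a ω ^ (m + 1) ∂P = ∫⁻ ω, ∫⁻ v, a v ω * Z ν a ω ^ m ∂ν ∂P := by
        apply lintegral_congr
        intro ω
        rw [lintegral_mul_const _ (measurable_sec ha ω), pow_succ, mul_comm]
        rfl
    _ = ∫⁻ v, ∫⁻ ω, a v ω * Z ν a ω ^ m ∂P ∂ν := lintegral_lintegral_swap hm.aemeasurable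
    _ ≤ ∫⁻ v, S ^ m * (m.factorial : ℝ≥0∞) * ∫⁻ ω, a v ω ∂P ∂ν := by
        apply lintegral_mono
        intro v
        have h := mom_step P ν ha H m 0 (fun _ => v)
        simpa [Nat.one_ascFactorial] using h
    _ = S ^ m * (m.factorial : ℝ≥0∞) * ∫⁻ v, ∫⁻ ω, a v ω ∂P ∂ν := by
        rw [lintegral_const_mul]
        exact ha.lintegral_prod_right'
    _ = _ := by
        congr 1
        unfold Z
        exact lintegral_lintegral_swap ha.aemeasurable

end Pool.Agent.W2helper36.LN
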