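import Pool.Agent.W2helper36.LN.Series

set_option autoImplicit false

/-!
A bounded continuous random field which is locally nondeterministic at all scales.
-/

open MeasureTheory Set ENNReal Metric ProbabilityTheory Filter Topology

namespace Pool.Agent.W2helper36.LN.Noise

open Pool.Agent.H803R2.KakFTO (Vec)
open Pool.Agent.TH426.Kt (nb nb_univ_eq)

variable {d : ℕ}

/-- Indices: generation and position. -/
abbrev Ix (d : ℕ) : Type := ℕ × (Fin d → ℤ)

/-- The probability space. -/
abbrev Om (d : ℕ) : Type := Ix d → Vec d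

instance (d : ℕ) : IsProbabilityMeasure (nb d 1) := ⟨nb_univ_eq d one_pos⟩

/-- Independent uniformly distributed points of the unit ball. -/
noncomputable def PP (d : ℕ) : Measure (Om d) := Measure.infinitePi fun _ : Ix d => nb d 1

instance (d : ℕ) : IsProbabilityMeasure (PP d) := by
  unfold PP
  infer_instance

/-- Truncation. -/
noncomputable def clip (z : Vec d) : Vec d :=
  open scoped Classical in if ‖z‖ ≤ 1 then z else 0

theorem norm_clip (z : Vec d) : ‖clip z‖ ≤ 1 := by
  unfold clip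
  split_ifs with h
  · exact h
  · simp

theorem measurable_clip : Measurable (clip : Vec d → Vec d) := by
  classical
  unfold clip
  exact Measurable.ite (measurableSet_le measurable_norm measurable_const) measurable_id
    measurable_const

/-- The amplitude. -/
noncomputable def amp (d : ℕ) (κ : ℝ) (j : ℕ) : ℝ := κ * (1 / 2) ^ (j + 1 + d)

/-- The random vectors. -/
noncomputable def X (κ : ℝ) (s : Ix d) (ω : Om d) : Vec d := amp d κ s.1 • clip (ω s)

theorem measurable_X (κ : ℝ) (s : Ix d) : Measurable (X κ s) := by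
  unfold X
  have h : Measurable (fun ω : Om d => ω s) := measurable_pi_apply s
  have h2 : Measurable (fun ω : Om d => clip (ω s)) := by
    have h0 := measurable_clip.comp h
    exact h0
  exact msm h2 _

theorem indep_X (κ : ℝ) : iIndepFun (X (d := d) κ) (PP d) := by
  have h := iIndepFun_infinitePi (P := fun _ : Ix d => nb d 1)
    (X := fun (s : Ix d) (z : Vec d) => amp d κ s.1 • clip z)
    (fun s => msm measurable_clip _)
  exact h

theorem norm_X {κ : ℝ} (hκ : 0 ≤ κ) (s : Ix d) (ω : Om d) : ‖X κ s ω‖ ≤ amp d κ s.1 := by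
  unfold X
  have ha : 0 ≤ amp d κ s.1 := by unfold amp; positivity
  rw [norm_smul, Real.norm_eq_abs, abs_of_nonneg ha]
  exact mul_le_of_le_one_right ha (norm_clip _)

/-- The distance to the grid point, in the maximum norm. -/
noncomputable def di (s : Ix d) (v : Vec d) : ℝ := ‖(fun i => (2 : ℝ) ^ s.1 * v i - s.2 i : Fin d → ℝ)‖

theorem continuous_di (s : Ix d) : Continuous (di s) := by
  unfold di
  apply Continuous.norm
  apply continuous_pi
  intro i
  have : Continuous (fun v : Vec d => v i) := PiLp.continuous_apply 2 (fun _ : Fin d => ℝ) i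
  exact (continuous_const.mul this).sub continuous_const

/-- The hat functions. -/
noncomputable def hat (s : Ix d) (v : Vec d) : ℝ := max 0 (1 - di s v)

theorem continuous_hat (s : Ix d) : Continuous (hat s) :=
  continuous_const.max (continuous_const.sub (continuous_di s))

theorem hat_nonneg (s : Ix d) (v : Vec d) : 0 ≤ hat s v := le_max_left _ _

theorem hat_le_one (s : Ix d) (v : Vec d) : hat s v ≤ 1 := by
  unfold hat
  apply max_le zero_le_one
  have : 0 ≤ di s v := norm_nonneg _
  linarith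

/-- The positions of generation `j`. -/
noncomputable def box (d j : ℕ) : Finset (Fin d → ℤ) :=
  Fintype.piFinset fun _ => Finset.Icc (-(2 ^ j) - 1) (2 ^ j + 1)

/-- The positions whose hat function does not vanish at `v`. -/
noncomputable def near (j : ℕ) (v : Vec d) : Finset (Fin d → ℤ) :=
  Fintype.piFinset fun i => {⌊(2 : ℝ) ^ j * v i⌋, ⌊(2 : ℝ) ^ j * v i⌋ + 1}

theorem card_near (j : ℕ) (v : Vec d) : (near j v).card ≤ 2 ^ d := by
  unfold near
  rw [Fintype.card_piFinset]
  calc ∏ i : Fin d, Finset.card {⌊(2 : ℝ) ^ j * v i⌋, ⌊(2 : ℝ) ^ j * v i⌋ + 1}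
      ≤ ∏ _i : Fin d, 2 := by
        apply Finset.prod_le_prod
        · intro i _; exact Nat.zero_le _
        · intro i _; exact Finset.card_le_two
    _ = 2 ^ d := by simp

theorem mem_near {j : ℕ} {v : Vec d} {k : Fin d → ℤ} (h : hat (j, k) v ≠ 0) : k ∈ near j v := by
  unfold near
  rw [Fintype.mem_piFinset]
  intro i
  have h1 : di (j, k) v < 1 := by
    by_contra hcon
    apply h
    unfold hat
    rw [max_eq_left]
    linarith [not_lt.1 hcon]
  have h2 : |(2 : ℝ) ^ j * v i - k i| < 1 := by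
    have h3 := norm_le_pi_norm (fun i => (2 : ℝ) ^ j * v i - k i : Fin d → ℝ) i
    exact lt_of_le_of_lt h3 h1
  rw [abs_lt] at h2
  rw [Finset.mem_insert, Finset.mem_singleton]
  have h4 : ⌊(2 : ℝ) ^ j * v i⌋ ≤ k i := by
    have : (⌊(2 : ℝ) ^ j * v i⌋ : ℝ) ≤ (2 : ℝ) ^ j * v i := Int.floor_le _
    have h5 : (⌊(2 : ℝ) ^ j * v i⌋ : ℝ) < (k i : ℝ) + 1 := by linarith
    have h6 : ⌊(2 : ℝ) ^ j * v i⌋ < k i + 1 := by exact_mod_cast h5
    omega
  have h5 : k i ≤ ⌊(2 : ℝ) ^ j * v i⌋ + 1 := by
    have h7 : (2 : ℝ) ^ j * v i < ⌊(2 : ℝ) ^ j * v i⌋ + 1 := Int.lt_floor_add_one _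
    have h8 : (k i : ℝ) < ⌊(2 : ℝ) ^ j * v i⌋ + 1 + 1 := by linarith
    have h9 : k i < ⌊(2 : ℝ) ^ j * v i⌋ + 1 + 1 := by exact_mod_cast h8
    omega
  omega

theorem sum_hat_le (j : ℕ) (v : Vec d) : ∑ k ∈ box d j, hat (j, k) v ≤ 2 ^ d := by
  classical
  calc ∑ k ∈ box d j, hat (j, k) v ≤ ∑ k ∈ box d j, if k ∈ near j v then (1 : ℝ) else 0 := by
        apply Finset.sum_le_sum
        intro k _
        split_ifs with h
        · exact hat_le_one _ _
        · by_contra hcon
          apply h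
          apply mem_near
          intro h0
          rw [h0] at hcon
          exact hcon le_rfl
    _ = ((box d j).filter (fun k => k ∈ near j v)).card := by
        rw [Finset.sum_boole]
    _ ≤ ((near j v).card : ℝ) := by
        exact_mod_cast Finset.card_le_card (fun k hk => (Finset.mem_filter.1 hk).2)
    _ ≤ 2 ^ d := by exact_mod_cast card_near j v

/-- The noise of generation `j`. -/
noncomputable def gj (κ : ℝ) (j : ℕ) (ω : Om d) (v : Vec d) : Vec d :=
  ∑ k ∈ box d j, hat (j, k) v • X κ (j, k) ω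

theorem norm_gj {κ : ℝ} (hκ : 0 ≤ κ) (j : ℕ) (ω : Om d) (v : Vec d) :
    ‖gj κ j ω v‖ ≤ κ * (1 / 2) ^ (j + 1) := by
  unfold gj
  have ha : 0 ≤ amp d κ j := by unfold amp; positivity
  calc ‖∑ k ∈ box d j, hat (j, k) v • X κ (j, k) ω‖
      ≤ ∑ k ∈ box d j, ‖hat (j, k) v • X κ (j, k) ω‖ := norm_sum_le _ _
    _ ≤ ∑ k ∈ box d j, hat (j, k) v * amp d κ j := by
        apply Finset.sum_le_sum
        intro k _
        rw [norm_smul, Real.norm_eq_abs, abs_of_nonneg (hat_nonneg _ _)]
        exact mul_le_mul_of_nonneg_left (norm_X hκ (j, k) ω) (hat_nonneg _ _)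
    _ = (∑ k ∈ box d j, hat (j, k) v) * amp d κ j := by rw [Finset.sum_mul]
    _ ≤ 2 ^ d * amp d κ j := mul_le_mul_of_nonneg_right (sum_hat_le j v) ha
    _ = κ * (1 / 2) ^ (j + 1) * (2 * (1 / 2)) ^ d := by
        unfold amp
        rw [mul_pow 2 (1 / 2 : ℝ), pow_add]
        ring
    _ = κ * (1 / 2) ^ (j + 1) := by norm_num

theorem hasSum_bd (κ : ℝ) : HasSum (fun j : ℕ => κ * (1 / 2 : ℝ) ^ (j + 1)) κ := by
  have h := (hasSum_geometric_two.mul_left (κ * (1 / 2)))
  have e : κ * (1 / 2) * 2 = κ := by ring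
  rw [e] at h
  have e2 : (fun j : ℕ => κ * (1 / 2 : ℝ) ^ (j + 1)) = fun j => κ * (1 / 2) * (1 / 2) ^ j := by
    funext j
    rw [pow_succ]
    ring
  rw [e2]
  exact h

/-- The noise. -/
noncomputable def g (κ : ℝ) (ω : Om d) (v : Vec d) : Vec d := ∑' j, gj κ j ω v

theorem norm_g {κ : ℝ} (hκ : 0 ≤ κ) (ω : Om d) (v : Vec d) : ‖g κ ω v‖ ≤ κ :=
  tsum_of_norm_bounded (hasSum_bd κ) fun j => norm_gj hκ j ω v

theorem summable_gj {κ : ℝ} (hκ : 0 ≤ κ) (ω : Om d) (v : Vec d) : Summable fun j => gj κ j ω v :=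
  Summable.of_norm_bounded (hasSum_bd κ).summable fun j => norm_gj hκ j ω v

theorem continuous_g {κ : ℝ} (hκ : 0 ≤ κ) (ω : Om d) : Continuous (g κ ω) := by
  unfold g
  apply continuous_tsum (u := fun j : ℕ => κ * (1 / 2 : ℝ) ^ (j + 1))
  · intro j
    unfold gj
    apply continuous_finset_sum
    intro k _
    exact (continuous_hat _).smul continuous_const
  · exact (hasSum_bd κ).summable
  · intro j v
    exact norm_gj hκ j ω v

theorem measurable_g {κ : ℝ} (hκ : 0 ≤ κ) : Measurable (fun z : Om d × Vec d => g κ z.1 z.2) := by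
  unfold g
  apply tsum_gen
  · intro j
    unfold gj
    apply Finset.measurable_fun_sum
    intro k _
    have h1 : Measurable (fun z : Om d × Vec d => hat (j, k) z.2) := by
      have h0 := (continuous_hat (d := d) (j, k)).measurable.comp
        (measurable_snd : Measurable (fun z : Om d × Vec d => z.2))
      exact h0
    have h2 : Measurable (fun z : Om d × Vec d => X κ (j, k) z.1) := by
      have h0 := (measurable_X (d := d) κ (j, k)).comp
        (measurable_fst : Measurable (fun z : Om d × Vec d => z.1))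
      exact h0
    exact msm2 h1 h2
  · intro z
    exact summable_gj hκ z.1 z.2

theorem vol_pre {c : ℝ} (hc : 0 < c) (x : Vec d) {r : ℝ} (hr : 0 < r) :
    volume {z : Vec d | ‖c • z - x‖ ≤ r} = ENNReal.ofReal ((r / c) ^ d) * vb d := by
  have e : {z : Vec d | ‖c • z - x‖ ≤ r} = closedBall (c⁻¹ • x) (r / c) := by
    ext z
    rw [mem_setOf_eq, mem_closedBall, dist_eq_norm]
    have : c • z - x = c • (z - c⁻¹ • x) := by
      rw [smul_sub, smul_inv_smul₀ hc.ne']
    rw [this, norm_smul, Real.norm_eq_abs, abs_of_pos hc, le_div_iff₀ hc, mul_comm]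
  rw [e, vol_cb _ (by positivity)]

theorem conc_X {κ : ℝ} (hκ : 0 < κ) (s : Ix d) {c : ℝ} (hc : 0 < c) (x : Vec d) {r : ℝ}
    (hr : 0 < r) :
    PP d {ω | ‖c • X κ s ω - x‖ ≤ r} ≤ ENNReal.ofReal ((r / (c * amp d κ s.1)) ^ d) := by
  have ha : 0 < amp d κ s.1 := by unfold amp; positivity
  have hm0 : Measurable (fun z : Vec d => ‖c • (amp d κ s.1 • clip z) - x‖) :=
    ((msm (msm measurable_clip (amp d κ s.1)) c).sub_const x).norm
  have hm : MeasurableSet {z : Vec d | ‖c • (amp d κ s.1 • clip z) - x‖ ≤ r} :=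
    measurableSet_le hm0 measurable_const
  have e1 : PP d {ω | ‖c • X κ s ω - x‖ ≤ r} =
      nb d 1 {z : Vec d | ‖c • (amp d κ s.1 • clip z) - x‖ ≤ r} := by
    have h := (measurePreserving_eval_infinitePi (fun _ : Ix d => nb d 1) s).measure_preimage
      hm.nullMeasurableSet
    exact h
  rw [e1]
  unfold nb
  rw [Measure.smul_apply, smul_eq_mul, Measure.restrict_apply hm]
  have hV0 : volume (closedBall (0 : Vec d) 1) ≠ 0 := vb_ne_zero d
  have hVt : volume (closedBall (0 : Vec d) 1) ≠ ∞ := vb_ne_top d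
  calc (volume (closedBall (0 : Vec d) 1))⁻¹ *
        volume ({z : Vec d | ‖c • (amp d κ s.1 • clip z) - x‖ ≤ r} ∩ closedBall 0 1)
      ≤ (volume (closedBall (0 : Vec d) 1))⁻¹ *
          volume {z : Vec d | ‖(c * amp d κ s.1) • z - x‖ ≤ r} := by
        gcongr
        rintro z ⟨hz1, hz2⟩
        have hz3 : ‖z‖ ≤ 1 := by simpa using hz2
        have hz4 : clip z = z := by
          unfold clip
          rw [if_pos hz3]
        rw [mem_setOf_eq, hz4, smul_smul] at hz1
        exact hz1
    _ = (volume (closedBall (0 : Vec d) 1))⁻¹ *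
          (ENNReal.ofReal ((r / (c * amp d κ s.1)) ^ d) * volume (closedBall (0 : Vec d) 1)) := by
        rw [vol_pre (by positivity) x hr]
        rfl
    _ = _ := by
        rw [mul_comm (ENNReal.ofReal _), ← mul_assoc, ENNReal.inv_mul_cancel hV0 hVt, one_mul]

/-- The nearest grid point. -/
noncomputable def rd (j : ℕ) (v : Vec d) : Fin d → ℤ := fun i => round ((2 : ℝ) ^ j * v i)

theorem di_rd (j : ℕ) (v : Vec d) : di (j, rd j v) v ≤ 1 / 2 := by
  unfold di
  rw [pi_norm_le_iff_of_nonneg (by norm_num)]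
  intro i
  exact abs_sub_round _

theorem hat_rd (j : ℕ) (v : Vec d) : 1 / 2 ≤ hat (j, rd j v) v := by
  unfold hat
  refine le_trans ?_ (le_max_right _ _)
  linarith [di_rd j v]

theorem rd_mem (j : ℕ) {v : Vec d} (hv : ‖v‖ ≤ 1) : rd j v ∈ box d j := by
  unfold box
  rw [Fintype.mem_piFinset]
  intro i
  have h1 : |v i| ≤ 1 := by
    have := PiLp.norm_apply_le v i
    rw [Real.norm_eq_abs] at this
    exact this.trans hv
  have hp : (0 : ℝ) < 2 ^ j := by positivity
  have h2 : |(2 : ℝ) ^ j * v i| ≤ 2 ^ j := by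
    rw [abs_mul, abs_of_pos hp]
    nlinarith
  have h3 := abs_sub_round ((2 : ℝ) ^ j * v i)
  rw [abs_le] at h2 h3
  rw [Finset.mem_Icc]
  unfold rd
  constructor
  · have : (((-(2 ^ j) - 1 : ℤ)) : ℝ) ≤ (round ((2 : ℝ) ^ j * v i) : ℝ) := by
      push_cast
      linarith [h2.1, h3.2]
    exact_mod_cast this
  · have : (round ((2 : ℝ) ^ j * v i) : ℝ) ≤ ((2 ^ j + 1 : ℤ) : ℝ) := by
      push_cast
      linarith [h2.2, h3.1]
    exact_mod_cast this

theorem hat_zero (hd : 1 ≤ d) (j : ℕ) (v w : Vec d) (h : 3 / 2 * d * (1 / 2) ^ j ≤ ‖w - v‖) :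
    hat (j, rd j v) w = 0 := by
  unfold hat
  rw [max_eq_left]
  by_contra hcon
  rw [not_le] at hcon
  have h1 : di (j, rd j v) w < 1 := by linarith
  have hp : (0 : ℝ) < 2 ^ j := by positivity
  have h2 : ∀ i, |w i - v i| < 3 / 2 * (1 / 2) ^ j := by
    intro i
    have a1 : |(2 : ℝ) ^ j * w i - rd j v i| < 1 :=
      lt_of_le_of_lt (norm_le_pi_norm (fun i => (2 : ℝ) ^ j * w i - rd j v i : Fin d → ℝ) i) h1
    have a2 : |(2 : ℝ) ^ j * v i - rd j v i| ≤ 1 / 2 := abs_sub_round _
    have a3 : |(2 : ℝ) ^ j * (w i - v i)| < 3 / 2 := by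
      rw [abs_lt] at a1 ⊢
      rw [abs_le] at a2
      constructor <;> nlinarith [a1.1, a1.2, a2.1, a2.2]
    rw [abs_mul, abs_of_pos hp] at a3
    have e : (1 / 2 : ℝ) ^ j * 2 ^ j = 1 := by rw [← mul_pow]; norm_num
    have hq : (0 : ℝ) < (1 / 2) ^ j := by positivity
    calc |w i - v i| = (1 / 2) ^ j * (2 ^ j * |w i - v i|) := by rw [← mul_assoc, e, one_mul]
      _ < (1 / 2) ^ j * (3 / 2) := by gcongr
      _ = _ := by ring
  have h3 : ‖w - v‖ ≤ ∑ i : Fin d, |w i - v i| := by
    have e : w - v = ∑ i : Fin d, EuclideanSpace.single i (w i - v i) := by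
      ext i
      simp [Finset.sum_apply, PiLp.sub_apply]
    calc ‖w - v‖ = ‖∑ i : Fin d, EuclideanSpace.single i (w i - v i)‖ := by rw [← e]
      _ ≤ ∑ i : Fin d, ‖EuclideanSpace.single i (w i - v i)‖ := norm_sum_le _ _
      _ = _ := by simp [Real.norm_eq_abs]
  have h4 : ∑ i : Fin d, |w i - v i| < ∑ _i : Fin d, 3 / 2 * (1 / 2 : ℝ) ^ j := by
    apply Finset.sum_lt_sum_of_nonempty
    · exact ⟨⟨0, by omega⟩, Finset.mem_univ _⟩
    · intro i _
      exact h2 i
  simp only [Finset.sum_const, Finset.card_univ, Fintype.card_fin, nsmul_eq_mul] at h4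
  nlinarith

/-- The constant. -/
noncomputable def cn (d : ℕ) : ℝ := (3 * d * 2 ^ (d + 2))⁻¹

theorem cn_pos (hd : 1 ≤ d) : 0 < cn d := by
  unfold cn
  have : (0 : ℝ) < d := by exact_mod_cast hd
  positivity

theorem cn_le (hd : 1 ≤ d) : cn d ≤ 1 := by
  unfold cn
  apply inv_le_one_of_one_le₀
  have h1 : (1 : ℝ) ≤ d := by exact_mod_cast hd
  have h2 : (1 : ℝ) ≤ 2 ^ (d + 2) := one_le_pow₀ (by norm_num)
  nlinarith

/-- **The noise is locally nondeterministic**, whatever drift is added. -/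
theorem lnd_noise (hd : 1 ≤ d) {κ : ℝ} (hκ : 0 < κ) (b₀ : Vec d → Vec d) :
    LND (PP d) (cn d * κ) d (fun ω v => b₀ v + g κ ω v) := by
  classical
  apply lnd_core (fun s => measurable_X κ s) (indep_X κ)
  intro v ρ hv hρ hρ1
  have hdR : (1 : ℝ) ≤ d := by exact_mod_cast hd
  have hx0 : 0 < 2 * ρ / (3 * d) := by positivity
  have hx1 : 2 * ρ / (3 * d) ≤ 1 := by
    rw [div_le_one (by positivity)]
    nlinarith
  obtain ⟨n, hn1, hn2⟩ := exists_nat_pow_near_of_lt_one hx0 hx1 (by norm_num : (0 : ℝ) < 1 / 2)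
    (by norm_num)
  set j := n + 1 with hj
  set k := rd j v with hk
  have hkm : k ∈ box d j := rd_mem j hv
  have hjlow : ρ / (3 * d) ≤ (1 / 2 : ℝ) ^ j := by
    rw [hj, pow_succ]
    have : 2 * ρ / (3 * d) = 2 * (ρ / (3 * d)) := by ring
    rw [this] at hn2
    linarith
  have hjup : 3 / 2 * d * (1 / 2 : ℝ) ^ j ≤ ρ := by
    have h1 : (1 / 2 : ℝ) ^ j ≤ 2 * ρ / (3 * d) := hn1.le
    rw [le_div_iff₀ (by positivity)] at h1
    nlinarith
  have hc : 1 / 2 ≤ hat (j, k) v := hat_rd j v
  have hc0 : 0 < hat (j, k) v := by linarith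
  refine ⟨(j, k), hat (j, k) v, ?_, ?_, ?_⟩
  · intro w _ hwv
    have h0 : hat (j, k) w = 0 := hat_zero hd j v w (hjup.trans hwv)
    apply Measurable.const_add
    unfold g
    apply meas_tsum _ (fun ω => summable_gj hκ.le ω w)
    intro j'
    unfold gj
    apply Finset.measurable_fun_sum
    intro k' _
    by_cases hs : (j', k') = (j, k)
    · have : (fun ω => hat (j', k') w • X κ (j', k') ω) = fun _ : Om d => (0 : Vec d) := by
        funext ω
        rw [hs, h0, zero_smul]
      rw [this]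
      exact measurable_const
    · exact smul_Fs hs _
  · have e : (fun ω => b₀ v + g κ ω v - hat (j, k) v • X κ (j, k) ω) =
        fun ω => b₀ v + ∑' j', (gj κ j' ω v - if j' = j then hat (j, k) v • X κ (j, k) ω else 0) := by
      funext ω
      have hs1 : Summable (fun j' : ℕ => if j' = j then hat (j, k) v • X κ (j, k) ω else 0) := by
        have := (hasSum_ite_eq j (hat (j, k) v • X κ (j, k) ω)).summable
        exact this
      rw [(summable_gj hκ.le ω v).tsum_sub hs1, tsum_ite_eq]
      unfold g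
      abel
    rw [e]
    apply Measurable.const_add
    apply meas_tsum
    · intro j'
      by_cases hj' : j' = j
      · have e2 : (fun ω : Om d => gj κ j' ω v - if j' = j then hat (j, k) v • X κ (j, k) ω else 0) =
            fun ω => ∑ k' ∈ (box d j).erase k, hat (j, k') v • X κ (j, k') ω := by
          funext ω
          rw [if_pos hj', hj']
          unfold gj
          rw [← Finset.add_sum_erase _ _ hkm]
          abel
        rw [e2]
        apply Finset.measurable_fun_sum
        intro k' hk'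
        apply smul_Fs
        intro heq
        rw [Prod.mk.injEq] at heq
        exact (Finset.ne_of_mem_erase hk') heq.2
      · simp only [hj', if_false, sub_zero]
        unfold gj
        apply Finset.measurable_fun_sum
        intro k' _
        apply smul_Fs
        intro heq
        rw [Prod.mk.injEq] at heq
        exact hj' heq.1
    · intro ω
      apply (summable_gj hκ.le ω v).sub
      have := (hasSum_ite_eq j (hat (j, k) v • X κ (j, k) ω)).summable
      exact this
  · intro x r hr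
    refine (conc_X hκ (j, k) hc0 x hr).trans (ENNReal.ofReal_le_ofReal ?_)
    rw [Real.rpow_natCast]
    have hcn := cn_pos hd
    have ha : 0 < amp d κ j := by unfold amp; positivity
    apply pow_le_pow_left₀ (by positivity)
    apply div_le_div_of_nonneg_left hr.le (by positivity)
    have h1 : cn d * κ * ρ = κ * (1 / 2) ^ (1 + d) * (ρ / (3 * d)) * (1 / 2) := by
      unfold cn
      have : (1 / 2 : ℝ) ^ (1 + d) = (2 ^ (1 + d))⁻¹ := by rw [one_div, inv_pow]
      rw [this]
      have h2 : (2 : ℝ) ^ (d + 2) = 2 * 2 ^ (1 + d) := by ring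
      rw [h2]
      field_simp
    rw [h1]
    calc κ * (1 / 2) ^ (1 + d) * (ρ / (3 * d)) * (1 / 2)
        ≤ κ * (1 / 2) ^ (1 + d) * (1 / 2) ^ j * hat (j, k) v := by gcongr
      _ = hat (j, k) v * amp d κ (j, k).1 := by
          unfold amp
          simp only
          rw [show j + 1 + d = (1 + d) + j by ring, pow_add]
          ring

end Pool.Agent.W2helper36.LN.Noise
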