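import Pool.Agent.W2helper36.LN.Sup

set_option autoImplicit false

/-!
All scales simultaneously.
-/

open MeasureTheory Set ENNReal Metric

namespace Pool.Agent.W2helper36.LN

open Pool.Agent.H803R2.KakFTO (Vec)

variable {d : ℕ} {Ω : Type*} [MeasurableSpace Ω]

/-- Number of moments at the scale `k`. -/
noncomputable def mk (d : ℕ) (H u : ℝ) (k : ℕ) : ℕ :=
  ⌈u + (d + 2) * (k + 1) + Real.log ((H + 1) * 3 ^ d)⌉₊

/-- The good event. -/
def good (b : Ω → Vec d → Vec d) (κ α H u : ℝ) : Set Ω := ⋂ k, (bad b κ α H k (mk d H u k))ᶜ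

theorem measurableSet_good {b : Ω → Vec d → Vec d}
    (hb : Measurable (fun z : Ω × Vec d => b z.1 z.2)) (κ α H u : ℝ) :
    MeasurableSet (good b κ α H u) :=
  MeasurableSet.iInter fun _ => (measurableSet_bad hb _ _ _ _ _).compl

theorem L_nonneg (d : ℕ) {H : ℝ} (hH : 0 ≤ H) : 0 ≤ Real.log ((H + 1) * 3 ^ d) := by
  apply Real.log_nonneg
  have h1 : (1 : ℝ) ≤ 3 ^ d := one_le_pow₀ (by norm_num)
  nlinarith

theorem P_good {P : Measure Ω} [IsProbabilityMeasure P] {b : Ω → Vec d → Vec d}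
    (hb : Measurable (fun z : Ω × Vec d => b z.1 z.2)) {κ α : ℝ} (hκ : 0 < κ) (hκ1 : κ ≤ 1)
    (hα : 0 ≤ α) (hαd : α ≤ d) (hL : LND P κ α b) {H : ℝ} (hH : 0 ≤ H) (u : ℝ) :
    P (good b κ α H u)ᶜ ≤ ENNReal.ofReal (Real.exp (-u)) := by
  have hstep : ∀ k : ℕ, P (bad b κ α H k (mk d H u k)) ≤
      ENNReal.ofReal (Real.exp (-u)) * (1 / 2 : ℝ≥0∞) ^ (k + 1) := by
    intro k
    refine (P_bad hb hκ hκ1 hα hαd hL k hH _).trans ?_
    have e1 : ENNReal.ofReal (Real.exp (-u)) * (1 / 2 : ℝ≥0∞) ^ (k + 1) =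
        ENNReal.ofReal (Real.exp (-u) * (1 / 2) ^ (k + 1)) := by
      rw [ENNReal.ofReal_mul (Real.exp_pos _).le, ENNReal.ofReal_pow (by norm_num)]
      congr 2
      rw [ENNReal.ofReal_div_of_pos (by norm_num)]
      simp
    rw [e1]
    apply ENNReal.ofReal_le_ofReal
    have hceil : u + (d + 2) * (k + 1) + Real.log ((H + 1) * 3 ^ d) ≤ (mk d H u k : ℝ) :=
      Nat.le_ceil _
    have hpos : 0 < (H + 1) * 3 ^ d := by positivity
    have h1 : Real.exp (-((mk d H u k : ℝ) + 1)) * ((H + 1) * 3 ^ d) ≤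
        Real.exp (-u) * Real.exp (-((d + 2) * (k + 1))) := by
      calc Real.exp (-((mk d H u k : ℝ) + 1)) * ((H + 1) * 3 ^ d)
          = Real.exp (-((mk d H u k : ℝ) + 1) + Real.log ((H + 1) * 3 ^ d)) := by
            rw [Real.exp_add, Real.exp_log hpos]
        _ ≤ Real.exp (-u + (-((d + 2) * (k + 1)))) := by
            apply Real.exp_le_exp.2
            linarith
        _ = _ := by rw [Real.exp_add]
    have h2 : ((2 : ℝ) ^ k) ^ (d + 1) ≤ Real.exp (k * (d + 1)) := by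
      rw [← pow_mul]
      calc (2 : ℝ) ^ (k * (d + 1)) ≤ (Real.exp 1) ^ (k * (d + 1)) := by
            apply pow_le_pow_left₀ (by norm_num)
            have := Real.add_one_le_exp 1
            linarith
        _ = Real.exp (k * (d + 1)) := by
            rw [← Real.exp_nat_mul]
            push_cast
            ring_nf
    have h3 : Real.exp (-((d + 2) * (k + 1)) : ℝ) * Real.exp (k * (d + 1)) ≤ (1 / 2) ^ (k + 1) := by
      rw [← Real.exp_add]
      calc Real.exp (-((d + 2) * (k + 1)) + k * (d + 1) : ℝ)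
          ≤ Real.exp (-(k + 1 : ℝ)) := by
            apply Real.exp_le_exp.2
            have : (0 : ℝ) ≤ d := by positivity
            nlinarith
        _ = (Real.exp (-1)) ^ (k + 1) := by
            rw [← Real.exp_nat_mul]
            push_cast
            ring_nf
        _ ≤ (1 / 2) ^ (k + 1) := by
            apply pow_le_pow_left₀ (Real.exp_pos _).le
            rw [Real.exp_neg, one_div]
            apply inv_anti₀ (by norm_num)
            have := Real.add_one_le_exp 1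
            linarith
    calc Real.exp (-((mk d H u k : ℝ) + 1)) * ((H + 1) * 3 ^ d) * (2 ^ k) ^ (d + 1)
        ≤ (Real.exp (-u) * Real.exp (-((d + 2) * (k + 1)))) * Real.exp (k * (d + 1)) := by
          gcongr
      _ = Real.exp (-u) * (Real.exp (-((d + 2) * (k + 1))) * Real.exp (k * (d + 1))) := by ring
      _ ≤ _ := by gcongr
  unfold good
  rw [compl_iInter]
  simp only [compl_compl]
  calc P (⋃ k, bad b κ α H k (mk d H u k)) ≤ ∑' k, P (bad b κ α H k (mk d H u k)) :=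
        measure_iUnion_le _
    _ ≤ ∑' k : ℕ, ENNReal.ofReal (Real.exp (-u)) * (1 / 2 : ℝ≥0∞) ^ (k + 1) :=
        ENNReal.tsum_le_tsum hstep
    _ = ENNReal.ofReal (Real.exp (-u)) := by
        rw [ENNReal.tsum_mul_left]
        have : ∑' k : ℕ, (1 / 2 : ℝ≥0∞) ^ (k + 1) = 1 := by
          have := ENNReal.tsum_geometric_add_one (1 / 2)
          rw [this]
          simp
          rw [ENNReal.inv_mul_cancel (by norm_num) (by norm_num)]
        rw [this, mul_one]

/-- The constant at the dyadic scales. -/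
noncomputable def C0 (d : ℕ) (H : ℝ) : ℝ :=
  2 * Real.exp 1 * (d + 5 + Real.log ((H + 1) * 3 ^ d)) * 6 ^ d * (vb d).toReal

theorem C0_nonneg (d : ℕ) {H : ℝ} (hH : 0 ≤ H) : 0 ≤ C0 d H := by
  have := L_nonneg d hH
  unfold C0
  positivity

theorem dyadic {b : Ω → Vec d → Vec d} {κ α H u : ℝ} (hκ : 0 < κ) (hα : 0 ≤ α) (hαd : α ≤ d)
    (hH : 0 ≤ H) (hu : 1 ≤ u) {ω : Ω} (hω : ω ∈ good b κ α H u) (k : ℕ) {τ : ℝ} (hτ : |τ| ≤ H)
    (y : Vec d) :
    U b ((1 / 2) ^ k) τ y ω ≤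
      ENNReal.ofReal (C0 d H * u * (k + 1) ^ 2 * ((1 / 2) ^ k / κ) ^ α) := by
  have hL := L_nonneg d hH
  have hω' : ω ∉ bad b κ α H k (mk d H u k) := by
    unfold good at hω
    rw [mem_iInter] at hω
    exact hω k
  refine (good_le hω' hτ y).trans ?_
  unfold lam SS
  have hp : (0 : ℝ) < (1 / 2) ^ k := by positivity
  have hceil : (mk d H u k : ℝ) < u + (d + 2) * (k + 1) + Real.log ((H + 1) * 3 ^ d) + 1 := by
    apply Nat.ceil_lt_add_one
    have : (0 : ℝ) ≤ (d + 2) * (k + 1) := by positivity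
    linarith
  have e1 : ENNReal.ofReal (Real.exp 1 * ((mk d H u k : ℝ) + 1)) *
      (((k : ℝ≥0∞) + 2) * (ENNReal.ofReal ((6 * (1 / 2) ^ k / κ) ^ α) * vb d)) =
      ENNReal.ofReal (Real.exp 1 * ((mk d H u k : ℝ) + 1) * (((k : ℝ) + 2) *
        ((6 * (1 / 2) ^ k / κ) ^ α * (vb d).toReal))) := by
    rw [ENNReal.ofReal_mul (p := Real.exp 1 * ((mk d H u k : ℝ) + 1)) (by positivity),
      ENNReal.ofReal_mul (p := (k : ℝ) + 2) (by positivity),
      ENNReal.ofReal_mul (p := (6 * (1 / 2) ^ k / κ) ^ α) (by positivity),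
      ENNReal.ofReal_toReal (vb_ne_top d)]
    congr 2
    rw [ENNReal.ofReal_add (by positivity) (by norm_num), ENNReal.ofReal_natCast]
    simp
  rw [e1]
  apply ENNReal.ofReal_le_ofReal
  have h6 : (6 * (1 / 2) ^ k / κ) ^ α ≤ 6 ^ d * ((1 / 2) ^ k / κ) ^ α := by
    rw [mul_div_assoc, Real.mul_rpow (by norm_num) (by positivity)]
    gcongr
    calc (6 : ℝ) ^ α ≤ (6 : ℝ) ^ (d : ℝ) := Real.rpow_le_rpow_of_exponent_le (by norm_num) hαd
      _ = _ := Real.rpow_natCast _ _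
  have hk : (0 : ℝ) ≤ k := by positivity
  have hd : (0 : ℝ) ≤ d := by positivity
  have hm : (mk d H u k : ℝ) + 1 ≤ u * (k + 1) * (d + 5 + Real.log ((H + 1) * 3 ^ d)) := by
    set L := Real.log ((H + 1) * 3 ^ d) with hLdef
    have h1 : (1 : ℝ) ≤ u * (k + 1) := by nlinarith
    have h2 : ((d : ℝ) + 2) * (k + 1) ≤ (d + 2) * (u * (k + 1)) := by
      gcongr
      nlinarith
    have h3 : L ≤ u * (k + 1) * L := by nlinarith
    have h4 : u ≤ u * (k + 1) := by nlinarith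
    nlinarith
  calc Real.exp 1 * ((mk d H u k : ℝ) + 1) * (((k : ℝ) + 2) *
        ((6 * (1 / 2) ^ k / κ) ^ α * (vb d).toReal))
      ≤ Real.exp 1 * (u * (k + 1) * (d + 5 + Real.log ((H + 1) * 3 ^ d))) * ((2 * (k + 1)) *
        ((6 ^ d * ((1 / 2) ^ k / κ) ^ α) * (vb d).toReal)) := by
        gcongr
        linarith
    _ = _ := by
        unfold C0
        ring

/-- The constant. -/
noncomputable def C1 (d : ℕ) (H : ℝ) : ℝ := 4 * 2 ^ d * C0 d H

/-- **The multiplicity at all scales.** -/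
theorem overlap {b : Ω → Vec d → Vec d} {κ α H u : ℝ} (hκ : 0 < κ) (hα : 0 ≤ α) (hαd : α ≤ d)
    (hH : 0 ≤ H) (hu : 1 ≤ u) {ω : Ω} (hω : ω ∈ good b κ α H u) {τ : ℝ} (hτ : |τ| ≤ H)
    (y : Vec d) {r : ℝ} (hr : 0 < r) (hr1 : r ≤ 1) :
    U b r τ y ω ≤ ENNReal.ofReal (C1 d H * u * (1 + Real.log (1 / r)) ^ 2 * (r / κ) ^ α) := by
  have hC0 := C0_nonneg d hH
  obtain ⟨k, hk1, hk2⟩ := exists_nat_pow_near_of_lt_one hr hr1 (by norm_num : (0 : ℝ) < 1 / 2)
    (by norm_num)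
  have hp : (0 : ℝ) < (1 / 2) ^ k := by positivity
  have hmono : U b r τ y ω ≤ U b ((1 / 2) ^ k) τ y ω := by
    unfold U Z
    apply lintegral_mono
    intro v
    simp only
    unfold aa
    by_cases h : ‖v‖ ≤ 1 ∧ ‖b ω v + τ • v - y‖ ≤ r
    · rw [if_pos h, if_pos ⟨h.1, h.2.trans hk2⟩]
    · rw [if_neg h]; exact zero_le
  refine hmono.trans ((dyadic hκ hα hαd hH hu hω k hτ y).trans (ENNReal.ofReal_le_ofReal ?_))
  have hlog : (k : ℝ) ≤ 2 * Real.log (1 / r) := by
    have h1 : Real.log (2 ^ k) ≤ Real.log (1 / r) := by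
      apply Real.log_le_log (by positivity)
      rw [le_div_iff₀ hr]
      calc (2 : ℝ) ^ k * r ≤ 2 ^ k * (1 / 2) ^ k := by gcongr
        _ = 1 := by rw [← mul_pow]; norm_num
    rw [Real.log_pow] at h1
    have h2 : (1 / 2 : ℝ) ≤ Real.log 2 := by
      have := Real.log_two_gt_d9
      linarith
    have h3 : (0 : ℝ) ≤ k := by positivity
    nlinarith
  have hr2 : (1 / 2 : ℝ) ^ k ≤ 2 * r := by
    rw [pow_succ] at hk1
    linarith
  have hk0 : (0 : ℝ) ≤ k := by positivity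
  have h2 : ((1 / 2) ^ k / κ) ^ α ≤ 2 ^ d * (r / κ) ^ α := by
    calc ((1 / 2) ^ k / κ) ^ α ≤ (2 * (r / κ)) ^ α := by
          apply Real.rpow_le_rpow (by positivity) _ hα
          rw [← mul_div_assoc]
          gcongr
      _ = 2 ^ α * (r / κ) ^ α := Real.mul_rpow (by norm_num) (by positivity)
      _ ≤ 2 ^ d * (r / κ) ^ α := by
          gcongr
          calc (2 : ℝ) ^ α ≤ (2 : ℝ) ^ (d : ℝ) := Real.rpow_le_rpow_of_exponent_le (by norm_num) hαd
            _ = _ := Real.rpow_natCast _ _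
  have h3 : ((k : ℝ) + 1) ^ 2 ≤ 4 * (1 + Real.log (1 / r)) ^ 2 := by
    have : (k : ℝ) + 1 ≤ 2 * (1 + Real.log (1 / r)) := by linarith
    calc ((k : ℝ) + 1) ^ 2 ≤ (2 * (1 + Real.log (1 / r))) ^ 2 := by gcongr
      _ = _ := by ring
  calc C0 d H * u * ((k : ℝ) + 1) ^ 2 * ((1 / 2) ^ k / κ) ^ α
      ≤ C0 d H * u * (4 * (1 + Real.log (1 / r)) ^ 2) * (2 ^ d * (r / κ) ^ α) := by
        gcongr
    _ = _ := by
        unfold C1
        ring

theorem U_eq {b : Ω → Vec d → Vec d} (hb : Measurable (fun z : Ω × Vec d => b z.1 z.2)) (r τ : ℝ)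
    (y : Vec d) (ω : Ω) :
    U b r τ y ω = volume {v | ‖v‖ ≤ 1 ∧ ‖b ω v + τ • v - y‖ ≤ r} := by
  have hg : Measurable (fun v : Vec d => (ω, v)) := measurable_const.prodMk measurable_id
  have hbm : Measurable (b ω) := by
    have h0 := hb.comp hg
    exact h0
  have hsm : Measurable (fun v : Vec d => τ • v) := measurable_const_smul τ
  have hm : MeasurableSet {v | ‖v‖ ≤ 1 ∧ ‖b ω v + τ • v - y‖ ≤ r} := by
    have h1 : MeasurableSet {v : Vec d | ‖v‖ ≤ 1} := measurableSet_le measurable_norm measurable_const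
    have h3 : Measurable (fun v : Vec d => ‖b ω v + τ • v - y‖) :=
      ((hbm.add hsm).sub_const y).norm
    have h2 : MeasurableSet {v : Vec d | ‖b ω v + τ • v - y‖ ≤ r} :=
      measurableSet_le h3 measurable_const
    exact h1.inter h2
  unfold U Z
  rw [← lintegral_indicator_one hm]
  apply lintegral_congr
  intro v
  unfold aa
  by_cases h : ‖v‖ ≤ 1 ∧ ‖b ω v + τ • v - y‖ ≤ r
  · rw [if_pos h, indicator_of_mem (by exact h)]
    rfl
  · rw [if_neg h, indicator_of_notMem (by exact h)]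

end Pool.Agent.W2helper36.LN
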