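import Pool.Agent.W2helper36.LN.Mom
import Pool.Agent.TH426.Kt.Back

set_option autoImplicit false

/-!
Locally nondeterministic random families of lines: the sequential bound.
-/

open MeasureTheory Set ENNReal Metric

namespace Pool.Agent.W2helper36.LN

open Pool.Agent.H803R2.KakFTO (Vec)

variable {Ω : Type*} [MeasurableSpace Ω] {d : ℕ}

/-- Conditionally on the lines number `w i` at distance at least `ρ` from `v`, the concentration
function of the line number `v` is at most `(r / (κ ρ)) ^ α`. -/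
def LND (P : Measure Ω) (κ α : ℝ) (b : Ω → Vec d → Vec d) : Prop :=
  ∀ (m : ℕ) (w : Fin m → Vec d) (v : Vec d) (ρ : ℝ), 0 < ρ → ρ ≤ 1 → ‖v‖ ≤ 1 → (∀ i, ‖w i‖ ≤ 1) →
    (∀ i, ρ ≤ ‖w i - v‖) → ∀ A : Set (Fin m → Vec d), MeasurableSet A → ∀ (x : Vec d) (r : ℝ), 0 < r →
      P {ω | (fun i => b ω (w i)) ∈ A ∧ ‖b ω v - x‖ ≤ r} ≤
        ENNReal.ofReal ((r / (κ * ρ)) ^ α) * P {ω | (fun i => b ω (w i)) ∈ A}

/-- The kernel. -/
noncomputable def kk (R κ α : ℝ) (t : ℝ) : ℝ≥0∞ :=
  if t = 0 then 1 else min 1 (ENNReal.ofReal ((R / (κ * min 1 t)) ^ α))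

theorem measurable_kk (R κ α : ℝ) : Measurable (kk R κ α) := by
  unfold kk
  apply Measurable.ite (measurableSet_singleton 0) measurable_const
  apply Measurable.min measurable_const
  apply Measurable.ennreal_ofReal
  apply Measurable.pow_const
  apply Measurable.div measurable_const
  apply Measurable.mul measurable_const
  exact measurable_const.min measurable_id

theorem kk_le_one (R κ α t : ℝ) : kk R κ α t ≤ 1 := by
  unfold kk
  split_ifs
  · exact le_rfl
  · exact min_le_left _ _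

theorem kk_le {R κ α t s : ℝ} (hR : 0 ≤ R) (hκ : 0 < κ) (hα : 0 ≤ α) (hs : 0 < s) (hst : s ≤ t)
    (hs1 : s ≤ 1) :
    kk R κ α t ≤ ENNReal.ofReal ((R / (κ * s)) ^ α) := by
  unfold kk
  have ht : 0 < t := lt_of_lt_of_le hs hst
  rw [if_neg ht.ne']
  refine (min_le_right _ _).trans (ENNReal.ofReal_le_ofReal ?_)
  have h1 : 0 < min 1 t := lt_min one_pos ht
  apply Real.rpow_le_rpow (by positivity) _ hα
  apply div_le_div_of_nonneg_left hR (by positivity)
  gcongr
  exact le_min hs1 hst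

/-- The occupation indicator. -/
noncomputable def aa (b : Ω → Vec d → Vec d) (R τ : ℝ) (y : Vec d) (v : Vec d) (ω : Ω) : ℝ≥0∞ :=
  open scoped Classical in
  if ‖v‖ ≤ 1 ∧ ‖b ω v + τ • v - y‖ ≤ R then 1 else 0

theorem aa_le_one (b : Ω → Vec d → Vec d) (R τ : ℝ) (y v : Vec d) (ω : Ω) : aa b R τ y v ω ≤ 1 := by
  unfold aa
  split_ifs <;> simp

theorem measurable_aa3 {b : Ω → Vec d → Vec d} (hb : Measurable (fun z : Ω × Vec d => b z.1 z.2))
    (R : ℝ) : Measurable (fun q : (Vec d × ℝ) × (Vec d × Ω) => aa b R q.1.2 q.1.1 q.2.1 q.2.2) := by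
  classical
  unfold aa
  have h1 : Measurable (fun q : (Vec d × ℝ) × (Vec d × Ω) => ‖q.2.1‖) :=
    (measurable_fst.comp measurable_snd).norm
  have h2 : Measurable (fun q : (Vec d × ℝ) × (Vec d × Ω) =>
      ‖b q.2.2 q.2.1 + q.1.2 • q.2.1 - q.1.1‖) := by
    apply Measurable.norm
    apply Measurable.sub _ (measurable_fst.comp measurable_fst)
    apply Measurable.add
    · exact hb.comp ((measurable_snd.comp measurable_snd).prodMk (measurable_fst.comp measurable_snd))
    · exact (measurable_snd.comp measurable_fst).smul (measurable_fst.comp measurable_snd)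
  apply Measurable.ite _ measurable_const measurable_const
  exact (measurableSet_le h1 measurable_const).inter (measurableSet_le h2 measurable_const)

theorem measurable_aa {b : Ω → Vec d → Vec d} (hb : Measurable (fun z : Ω × Vec d => b z.1 z.2))
    (R τ : ℝ) (y : Vec d) : Measurable (Function.uncurry (aa b R τ y)) := by
  have h : Measurable (fun p : Vec d × Ω => (((y, τ), p) : (Vec d × ℝ) × (Vec d × Ω))) :=
    measurable_const.prodMk measurable_id
  have h2 := (measurable_aa3 hb R).comp h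
  have e : Function.uncurry (aa b R τ y) =
      (fun q : (Vec d × ℝ) × (Vec d × Ω) => aa b R q.1.2 q.1.1 q.2.1 q.2.2) ∘
        (fun p : Vec d × Ω => (((y, τ), p) : (Vec d × ℝ) × (Vec d × Ω))) := by
    funext p
    obtain ⟨v, ω⟩ := p
    rfl
  rw [e]
  exact h2

theorem prod_aa (b : Ω → Vec d → Vec d) (R τ : ℝ) (y : Vec d) {k : ℕ} (u : Fin k → Vec d) (ω : Ω) :
    ∏ i, aa b R τ y (u i) ω = {ω | ∀ i, ‖u i‖ ≤ 1 ∧ ‖b ω (u i) + τ • u i - y‖ ≤ R}.indicator
      (fun _ => 1) ω := by
  classical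
  unfold aa
  rw [Finset.prod_ite_zero]
  simp only [Finset.mem_univ, forall_true_left, Finset.prod_const_one, indicator, mem_setOf_eq]

theorem meas_b {b : Ω → Vec d → Vec d} (hb : Measurable (fun z : Ω × Vec d => b z.1 z.2)) (v : Vec d) :
    Measurable (fun ω => b ω v) := hb.comp (measurable_id.prodMk measurable_const)

theorem seq_pt {P : Measure Ω} {b : Ω → Vec d → Vec d}
    (hb : Measurable (fun z : Ω × Vec d => b z.1 z.2)) {κ α : ℝ}
    (hL : LND P κ α b) {R : ℝ} (hR : 0 < R) (τ : ℝ) (y : Vec d) (k : ℕ) (u : Fin (k + 1) → Vec d)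
    (v : Vec d) :
    ∫⁻ ω, aa b R τ y v ω * ∏ i, aa b R τ y (u i) ω ∂P ≤
      (closedBall (0 : Vec d) 1).indicator (fun v => ∑ i, kk R κ α ‖v - u i‖) v *
        ∫⁻ ω, ∏ i, aa b R τ y (u i) ω ∂P := by
  classical
  by_cases hv : ‖v‖ ≤ 1
  swap
  · have : ∀ ω, aa b R τ y v ω = 0 := by
      intro ω
      unfold aa
      rw [if_neg (fun h => hv h.1)]
    simp [this]
  rw [indicator_of_mem (by simpa using hv)]
  by_cases hu : ∀ i, ‖u i‖ ≤ 1
  swap
  · have : ∀ ω, ∏ i, aa b R τ y (u i) ω = 0 := by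
      intro ω
      rw [prod_aa, indicator_of_notMem]
      intro h
      exact hu fun i => (h i).1
    simp [this]
  have hE : MeasurableSet {ω | ∀ i, ‖u i‖ ≤ 1 ∧ ‖b ω (u i) + τ • u i - y‖ ≤ R} := by
    simp only [setOf_forall]
    apply MeasurableSet.iInter
    intro i
    have h1 : MeasurableSet {ω : Ω | ‖b ω (u i) + τ • u i - y‖ ≤ R} :=
      measurableSet_le ((meas_b hb (u i)).add_const _ |>.sub_const _).norm measurable_const
    exact (MeasurableSet.const _).inter h1
  have hI : ∫⁻ ω, ∏ i, aa b R τ y (u i) ω ∂P =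
      P {ω | ∀ i, ‖u i‖ ≤ 1 ∧ ‖b ω (u i) + τ • u i - y‖ ≤ R} := by
    simp only [prod_aa]
    exact lintegral_indicator_one hE
  obtain ⟨i0, _, hi0⟩ := Finset.exists_min_image Finset.univ (fun i => ‖v - u i‖)
    ⟨0, Finset.mem_univ _⟩
  have hsum : kk R κ α ‖v - u i0‖ ≤ ∑ i, kk R κ α ‖v - u i‖ :=
    Finset.single_le_sum (f := fun i => kk R κ α ‖v - u i‖) (fun _ _ => zero_le) (Finset.mem_univ i0)
  refine le_trans ?_ (mul_le_mul_left hsum _)
  have htriv : ∫⁻ ω, aa b R τ y v ω * ∏ i, aa b R τ y (u i) ω ∂P ≤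
      1 * ∫⁻ ω, ∏ i, aa b R τ y (u i) ω ∂P := by
    rw [one_mul]
    apply lintegral_mono
    intro ω
    calc _ ≤ 1 * ∏ i, aa b R τ y (u i) ω := mul_le_mul_left (aa_le_one _ _ _ _ _ _) _
      _ = _ := one_mul _
  unfold kk
  split_ifs with h0
  · exact htriv
  · have hpos : 0 < ‖v - u i0‖ := lt_of_le_of_ne (norm_nonneg _) (Ne.symm h0)
    rw [min_def]
    split_ifs with h1
    · exact htriv
    · set A : Set (Fin (k + 1) → Vec d) := {z | ∀ i, ‖z i + τ • u i - y‖ ≤ R} with hA
      have hAm : MeasurableSet A := by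
        rw [hA]
        simp only [setOf_forall]
        apply MeasurableSet.iInter
        intro i
        apply measurableSet_le _ measurable_const
        exact ((measurable_pi_apply i).add_const _ |>.sub_const _).norm
      have hl := hL (k + 1) u v (min 1 ‖v - u i0‖) (lt_min one_pos hpos) (min_le_left _ _) hv hu
        (fun i => by
          rw [norm_sub_rev (u i) v]
          exact (min_le_right _ _).trans (hi0 i (Finset.mem_univ i))) A hAm (y - τ • v) R hR
      have e1 : {ω | (fun i => b ω (u i)) ∈ A} =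
          {ω | ∀ i, ‖u i‖ ≤ 1 ∧ ‖b ω (u i) + τ • u i - y‖ ≤ R} := by
        ext ω
        simp only [hA, mem_setOf_eq]
        exact ⟨fun h i => ⟨hu i, h i⟩, fun h i => (h i).2⟩
      rw [hI]
      rw [e1] at hl
      refine le_trans (le_of_eq ?_) hl
      have hvm : MeasurableSet {ω | ‖b ω v - (y - τ • v)‖ ≤ R} :=
        measurableSet_le ((meas_b hb v).sub_const _).norm measurable_const
      have e2 : {ω | (fun i => b ω (u i)) ∈ A ∧ ‖b ω v - (y - τ • v)‖ ≤ R} =
          {ω | ‖b ω v - (y - τ • v)‖ ≤ R} ∩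
            {ω | ∀ i, ‖u i‖ ≤ 1 ∧ ‖b ω (u i) + τ • u i - y‖ ≤ R} := by
        rw [← e1]
        ext ω
        simp only [mem_setOf_eq, mem_inter_iff]
        exact and_comm
      rw [e2, ← lintegral_indicator_one (hvm.inter hE)]
      apply lintegral_congr
      intro ω
      rw [prod_aa, inter_indicator_one]
      simp only [Pi.mul_apply]
      congr 1
      unfold aa
      have e3 : b ω v - (y - τ • v) = b ω v + τ • v - y := by abel
      by_cases h : ‖b ω v + τ • v - y‖ ≤ R
      · rw [if_pos ⟨hv, h⟩, indicator_of_mem]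
        · rfl
        · simp only [mem_setOf_eq, e3]; exact h
      · rw [if_neg (fun h' => h h'.2), indicator_of_notMem]
        simp only [mem_setOf_eq, e3]; exact h

end Pool.Agent.W2helper36.LN
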