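import Pool.Agent.W2helper36.LN.Max

set_option autoImplicit false

/-!
Random series with local terms are locally nondeterministic.
-/

open MeasureTheory Set ENNReal Metric ProbabilityTheory Filter Topology

namespace Pool.Agent.W2helper36.LN

open Pool.Agent.H803R2.KakFTO (Vec)

theorem tsum_gen {Ω' : Type*} (m' : MeasurableSpace Ω') {d : ℕ} {I : Type*} [Countable I]
    {f : I → Ω' → Vec d} (hf : ∀ t, Measurable (f t)) (hs : ∀ ω, Summable fun t => f t ω) :
    Measurable (fun ω => ∑' t, f t ω) := by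
  refine measurable_of_tendsto_metrizable' (atTop : Filter (Finset I))
    (f := fun S ω => ∑ t ∈ S, f t ω) (fun S => ?_) ?_
  · exact Finset.measurable_fun_sum _ fun t _ => hf t
  · rw [tendsto_pi_nhds]
    exact fun ω => (hs ω).hasSum

theorem msm {Ω' : Type*} [MeasurableSpace Ω'] {d : ℕ} {f : Ω' → Vec d} (hf : Measurable f) (c : ℝ) :
    Measurable (fun x => c • f x) := by
  have h1 : Measurable (fun z : Vec d => c • z) := measurable_const_smul c
  exact h1.comp hf

theorem msm2 {Ω' : Type*} [MeasurableSpace Ω'] {d : ℕ} {c : Ω' → ℝ} {f : Ω' → Vec d}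
    (hc : Measurable c) (hf : Measurable f) : Measurable (fun x => c x • f x) := by
  have h1 : Measurable (fun z : ℝ × Vec d => z.1 • z.2) := measurable_smul
  have h2 := h1.comp (hc.prodMk hf)
  exact h2

theorem pi_gen {Ω' : Type*} (m' : MeasurableSpace Ω') {d m : ℕ} {f : Ω' → Fin m → Vec d}
    (hf : ∀ i, Measurable (fun ω => f ω i)) : Measurable f := by
  rw [measurable_pi_iff]
  exact hf

variable {d : ℕ} {Ω : Type*} [mΩ : MeasurableSpace Ω]

theorem conc {β : Type*} [MeasurableSpace β] {P : Measure Ω} [IsProbabilityMeasure P]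
    {Y : Ω → β × Vec d} {X : Ω → Vec d} (hY : Measurable Y) (hX : Measurable X)
    (hYX : IndepFun Y X P) {c r : ℝ} {q : ℝ≥0∞}
    (hq : ∀ x : Vec d, P {ω | ‖c • X ω - x‖ ≤ r} ≤ q) {A : Set β} (hA : MeasurableSet A) :
    P {ω | (Y ω).1 ∈ A ∧ ‖c • X ω - (Y ω).2‖ ≤ r} ≤ q * P {ω | (Y ω).1 ∈ A} := by
  have hmap := (indepFun_iff_map_prod_eq_prod_map_map hY.aemeasurable hX.aemeasurable).1 hYX
  set D : Set ((β × Vec d) × Vec d) := {z | z.1.1 ∈ A ∧ ‖c • z.2 - z.1.2‖ ≤ r} with hD
  have hDm : MeasurableSet D := by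
    have h1 : MeasurableSet {z : (β × Vec d) × Vec d | z.1.1 ∈ A} :=
      (measurable_fst.comp measurable_fst) hA
    have h3 : Measurable (fun z : (β × Vec d) × Vec d => ‖c • z.2 - z.1.2‖) := by
      apply Measurable.norm
      apply Measurable.sub
      · exact measurable_snd.const_smul c
      · exact measurable_snd.comp measurable_fst
    exact h1.inter (measurableSet_le h3 measurable_const)
  have hYm : MeasurableSet {y : β × Vec d | y.1 ∈ A} := measurable_fst hA
  have e1 : P {ω | (Y ω).1 ∈ A ∧ ‖c • X ω - (Y ω).2‖ ≤ r} = (P.map (fun ω => (Y ω, X ω))) D := by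
    rw [Measure.map_apply (hY.prodMk hX) hDm]
    rfl
  have e2 : P {ω | (Y ω).1 ∈ A} = P.map Y {y | y.1 ∈ A} := by
    rw [Measure.map_apply hY hYm]
    rfl
  have : IsProbabilityMeasure (P.map X) := Measure.isProbabilityMeasure_map hX.aemeasurable
  rw [e1, hmap, Measure.prod_apply hDm, e2]
  calc ∫⁻ y, P.map X (Prod.mk y ⁻¹' D) ∂(P.map Y)
      ≤ ∫⁻ y, {y : β × Vec d | y.1 ∈ A}.indicator (fun _ => q) y ∂(P.map Y) := by
        apply lintegral_mono
        intro y
        simp only
        by_cases hy : y.1 ∈ A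
        · rw [indicator_of_mem (by exact hy), Measure.map_apply hX (hDm.preimage measurable_prodMk_left)]
          refine le_trans (measure_mono ?_) (hq y.2)
          intro ω hω
          exact hω.2
        · rw [indicator_of_notMem (by exact hy)]
          have : Prod.mk y ⁻¹' D = ∅ := by
            ext x
            simp [hD, hy]
          rw [this]
          simp
    _ = q * P.map Y {y | y.1 ∈ A} := by
        rw [lintegral_indicator hYm, setLIntegral_const]

/-- The σ-algebra of the variables other than number `s`. -/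
def Fs {I : Type*} (X : I → Ω → Vec d) (s : I) : MeasurableSpace Ω :=
  ⨆ t ∈ ({s}ᶜ : Set I), MeasurableSpace.comap (X t) inferInstance

theorem Fs_le {I : Type*} {X : I → Ω → Vec d} (hX : ∀ t, Measurable (X t)) (s : I) :
    Fs X s ≤ mΩ := by
  unfold Fs
  exact iSup₂_le fun t _ => (hX t).comap_le

theorem meas_Fs {I : Type*} {X : I → Ω → Vec d} {s t : I} (ht : t ≠ s) :
    Measurable[Fs X s] (X t) := by
  have h1 : MeasurableSpace.comap (X t) inferInstance ≤ Fs X s := by
    unfold Fs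
    exact le_iSup₂_of_le t (by simpa using ht) le_rfl
  exact (comap_measurable (X t)).mono h1 le_rfl

theorem smul_Fs {I : Type*} {X : I → Ω → Vec d} {s t : I} (ht : t ≠ s) (c : ℝ) :
    Measurable[Fs X s] (fun ω => c • X t ω) := by
  have h1 : Measurable (fun z : Vec d => c • z) := measurable_const_smul c
  exact h1.comp (meas_Fs ht)

theorem indep_Fs {I : Type*} {P : Measure Ω} {X : I → Ω → Vec d} (hX : ∀ t, Measurable (X t))
    (hind : iIndepFun X P) (s : I) {β : Type*} [MeasurableSpace β] {Y : Ω → β}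
    (hY : Measurable[Fs X s] Y) : IndepFun Y (X s) P := by
  have h1 := indep_iSup_of_disjoint (fun t => (hX t).comap_le) hind.iIndep (S := ({s}ᶜ : Set I))
    (T := {s}) (disjoint_compl_left)
  have h2 : (⨆ i ∈ ({s} : Set I), MeasurableSpace.comap (X i) inferInstance) =
      MeasurableSpace.comap (X s) inferInstance := by simp
  rw [h2] at h1
  rw [IndepFun_iff_Indep]
  exact indep_of_indep_of_le_left h1 hY.comap_le

theorem meas_tsum {I J : Type*} [Countable J] {X : I → Ω → Vec d} {s : I} {f : J → Ω → Vec d}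
    (hf : ∀ t, Measurable[Fs X s] (f t)) (hs : ∀ ω, Summable fun t => f t ω) :
    Measurable[Fs X s] (fun ω => ∑' t, f t ω) := tsum_gen (Fs X s) hf hs

/-- A criterion for local nondeterminism. -/
theorem lnd_core {I : Type*} {P : Measure Ω} [IsProbabilityMeasure P]
    {X : I → Ω → Vec d} (hX : ∀ t, Measurable (X t)) (hind : iIndepFun X P)
    {b : Ω → Vec d → Vec d} {κ α : ℝ}
    (h : ∀ (v : Vec d) (ρ : ℝ), ‖v‖ ≤ 1 → 0 < ρ → ρ ≤ 1 → ∃ (s : I) (c : ℝ),
      (∀ w, ‖w‖ ≤ 1 → ρ ≤ ‖w - v‖ → Measurable[Fs X s] (fun ω => b ω w)) ∧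
      Measurable[Fs X s] (fun ω => b ω v - c • X s ω) ∧
      ∀ (x : Vec d) (r : ℝ), 0 < r →
        P {ω | ‖c • X s ω - x‖ ≤ r} ≤ ENNReal.ofReal ((r / (κ * ρ)) ^ α)) :
    LND P κ α b := by
  intro m w v ρ hρ hρ1 hv hw hwv A hA x r hr
  obtain ⟨s, c, hs0, hsv, hconc⟩ := h v ρ hv hρ hρ1
  set Y1 : Ω → Fin m → Vec d := fun ω i => b ω (w i) with hY1
  set Y2 : Ω → Vec d := fun ω => x - (b ω v - c • X s ω) with hY2
  have hY1m : Measurable[Fs X s] Y1 := by
    apply pi_gen (Fs X s)
    intro i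
    exact hs0 (w i) (hw i) (hwv i)
  have hY2m : Measurable[Fs X s] Y2 := by
    rw [hY2]
    exact Measurable.const_sub hsv _
  have hYm : Measurable[Fs X s] (fun ω => (Y1 ω, Y2 ω)) := hY1m.prodMk hY2m
  have hYX : IndepFun (fun ω => (Y1 ω, Y2 ω)) (X s) P := indep_Fs hX hind s hYm
  have key := conc (hYm.mono (Fs_le hX s) le_rfl) (hX s) hYX (c := c) (r := r)
    (fun x => hconc x r hr) hA
  refine le_trans (le_of_eq ?_) key
  congr 1
  ext ω
  simp only [mem_setOf_eq]
  have e : b ω v - x = c • X s ω - Y2 ω := by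
    rw [hY2]
    simp only
    abel
  rw [e]

/-- **Random series are locally nondeterministic.** -/
theorem lnd_series {I : Type*} [Countable I] {P : Measure Ω} [IsProbabilityMeasure P]
    {X : I → Ω → Vec d} (hX : ∀ t, Measurable (X t)) (hind : iIndepFun X P) {φ : I → Vec d → ℝ}
    {b₀ : Vec d → Vec d} {b : Ω → Vec d → Vec d} {κ α : ℝ}
    (hs : ∀ ω v, ‖v‖ ≤ 1 → Summable fun t => φ t v • X t ω)
    (hb : ∀ ω v, ‖v‖ ≤ 1 → b ω v = b₀ v + ∑' t, φ t v • X t ω)
    (h : ∀ (v : Vec d) (ρ : ℝ), ‖v‖ ≤ 1 → 0 < ρ → ρ ≤ 1 → ∃ s, (∀ w, ‖w‖ ≤ 1 → ρ ≤ ‖w - v‖ → φ s w = 0) ∧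
      ∀ (x : Vec d) (r : ℝ), 0 < r →
        P {ω | ‖φ s v • X s ω - x‖ ≤ r} ≤ ENNReal.ofReal ((r / (κ * ρ)) ^ α)) :
    LND P κ α b := by
  classical
  apply lnd_core hX hind
  intro v ρ hv hρ hρ1
  obtain ⟨s, hs0, hconc⟩ := h v ρ hv hρ hρ1
  refine ⟨s, φ s v, ?_, ?_, hconc⟩
  · intro w hw hwv
    have e : (fun ω => b ω w) = fun ω => b₀ w + ∑' t, φ t w • X t ω := by
      funext ω
      exact hb ω w hw
    rw [e]
    apply Measurable.const_add
    apply meas_tsum _ (fun ω => hs ω w hw)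
    intro t
    by_cases ht : t = s
    · have : (fun ω => φ t w • X t ω) = fun _ => 0 := by
        funext ω
        rw [ht, hs0 w hw hwv, zero_smul]
      rw [this]
      exact measurable_const
    · exact smul_Fs ht _
  · have e : (fun ω => b ω v - φ s v • X s ω) =
        fun ω => b₀ v + ∑' t, if t = s then 0 else φ t v • X t ω := by
      funext ω
      rw [hb ω v hv, (hs ω v hv).tsum_eq_add_tsum_ite s]
      abel
    rw [e]
    apply Measurable.const_add
    apply meas_tsum
    · intro t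
      by_cases ht : t = s
      · simp only [ht, if_true]
        exact measurable_const
      · simp only [ht, if_false]
        exact smul_Fs ht _
    · intro ω
      exact (hasSum_ite_sub_hasSum (hs ω v hv).hasSum s).summable

end Pool.Agent.W2helper36.LN
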