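import Pool.Agent.W2helper36.LN.Ker

set_option autoImplicit false

/-!
From the moments to the supremum of the multiplicity function over all points.
-/

open MeasureTheory Set ENNReal Metric

namespace Pool.Agent.W2helper36.LN

open Pool.Agent.H803R2.KakFTO (Vec)

variable {d : ℕ} {Ω : Type*} [MeasurableSpace Ω]

theorem U_mono {b : Ω → Vec d → Vec d} {r : ℝ} {y y' : Vec d} {τ τ' : ℝ}
    (hy : ‖y' - y‖ ≤ r) (hτ : |τ' - τ| ≤ r) (ω : Ω) : U b r τ y ω ≤ U b (3 * r) τ' y' ω := by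
  unfold U Z
  apply lintegral_mono
  intro v
  simp only
  unfold aa
  by_cases h : ‖v‖ ≤ 1 ∧ ‖b ω v + τ • v - y‖ ≤ r
  · rw [if_pos h, if_pos]
    refine ⟨h.1, ?_⟩
    have e : b ω v + τ' • v - y' = (b ω v + τ • v - y) + ((τ' - τ) • v) - (y' - y) := by
      rw [sub_smul]; abel
    have h1 : ‖(τ' - τ) • v‖ ≤ r := by
      rw [norm_smul, Real.norm_eq_abs]
      calc |τ' - τ| * ‖v‖ ≤ |τ' - τ| * 1 := by
            gcongr
            exact h.1
        _ ≤ r := by rw [mul_one]; exact hτ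
    calc ‖b ω v + τ' • v - y'‖ = ‖(b ω v + τ • v - y) + ((τ' - τ) • v) - (y' - y)‖ := by rw [e]
      _ ≤ ‖(b ω v + τ • v - y) + ((τ' - τ) • v)‖ + ‖y' - y‖ := norm_sub_le _ _
      _ ≤ ‖b ω v + τ • v - y‖ + ‖(τ' - τ) • v‖ + ‖y' - y‖ := by
          gcongr
          exact norm_add_le _ _
      _ ≤ 3 * r := by linarith [h.2]
  · rw [if_neg h]
    exact zero_le

theorem measurable_U {b : Ω → Vec d → Vec d} (hb : Measurable (fun z : Ω × Vec d => b z.1 z.2))
    (R : ℝ) : Measurable (fun q : (Vec d × ℝ) × Ω => U b R q.1.2 q.1.1 q.2) := by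
  have h := measurable_aa3 hb R
  have h2 : Measurable (fun q : ((Vec d × ℝ) × Ω) × Vec d => aa b R q.1.1.2 q.1.1.1 q.2 q.1.2) := by
    have hg : Measurable (fun q : ((Vec d × ℝ) × Ω) × Vec d =>
        ((q.1.1, (q.2, q.1.2)) : (Vec d × ℝ) × (Vec d × Ω))) :=
      (measurable_fst.comp measurable_fst).prodMk
        (measurable_snd.prodMk (measurable_snd.comp measurable_fst))
    have h0 := h.comp hg
    exact h0
  exact h2.lintegral_prod_right'

theorem int_U {b : Ω → Vec d → Vec d} (hb : Measurable (fun z : Ω × Vec d => b z.1 z.2))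
    {R : ℝ} (hR : 0 ≤ R) (τ : ℝ) (ω : Ω) :
    ∫⁻ y, U b R τ y ω = vb d * (ENNReal.ofReal (R ^ d) * vb d) := by
  have h := measurable_aa3 hb R
  have hm : Measurable (fun q : Vec d × Vec d => aa b R τ q.1 q.2 ω) := by
    have hg : Measurable (fun q : Vec d × Vec d =>
        (((q.1, τ), (q.2, ω)) : (Vec d × ℝ) × (Vec d × Ω))) :=
      (measurable_fst.prodMk measurable_const).prodMk (measurable_snd.prodMk measurable_const)
    have h0 := h.comp hg
    exact h0
  unfold U Z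
  rw [lintegral_lintegral_swap hm.aemeasurable]
  have e : ∀ v : Vec d, ∫⁻ y, aa b R τ y v ω =
      (closedBall (0 : Vec d) 1).indicator (fun _ => ENNReal.ofReal (R ^ d) * vb d) v := by
    intro v
    by_cases hv : ‖v‖ ≤ 1
    · rw [indicator_of_mem (by simpa using hv), ← vol_cb (b ω v + τ • v) hR,
        ← lintegral_indicator_one measurableSet_closedBall]
      apply lintegral_congr
      intro y
      unfold aa
      by_cases h : ‖b ω v + τ • v - y‖ ≤ R
      · rw [if_pos ⟨hv, h⟩, indicator_of_mem]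
        · rfl
        · rw [mem_closedBall, dist_eq_norm, norm_sub_rev]; exact h
      · rw [if_neg (fun h' => h h'.2), indicator_of_notMem]
        rw [mem_closedBall, dist_eq_norm, norm_sub_rev]; exact h
    · rw [indicator_of_notMem (by simpa using hv)]
      have : ∀ y, aa b R τ y v ω = 0 := by
        intro y
        unfold aa
        rw [if_neg (fun h => hv h.1)]
      simp [this]
  simp only [e]
  rw [lintegral_indicator measurableSet_closedBall, setLIntegral_const, mul_comm]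
  rfl

/-- The integral of the powers of the multiplicity function. -/
noncomputable def FF (b : Ω → Vec d → Vec d) (H R : ℝ) (M : ℕ) (ω : Ω) : ℝ≥0∞ :=
  ∫⁻ τ in Icc (-(H + 1)) (H + 1), ∫⁻ y, U b R τ y ω ^ M

theorem measurable_FF {b : Ω → Vec d → Vec d} (hb : Measurable (fun z : Ω × Vec d => b z.1 z.2))
    (H R : ℝ) (M : ℕ) : Measurable (FF b H R M) := by
  have h := (measurable_U hb R).pow_const M
  have h1 : Measurable (fun q : (Ω × ℝ) × Vec d => U b R q.1.2 q.2 q.1.1 ^ M) := by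
    have hg : Measurable (fun q : (Ω × ℝ) × Vec d => (((q.2, q.1.2), q.1.1) : (Vec d × ℝ) × Ω)) :=
      (measurable_snd.prodMk (measurable_snd.comp measurable_fst)).prodMk
        (measurable_fst.comp measurable_fst)
    have h0 := h.comp hg
    exact h0
  have h2 : Measurable (fun q : Ω × ℝ => ∫⁻ y, U b R q.2 y q.1 ^ M) := h1.lintegral_prod_right'
  exact h2.lintegral_prod_right'

theorem le_FF {b : Ω → Vec d → Vec d} {H r : ℝ} (hr : 0 < r) (hr1 : r ≤ 1) {τ : ℝ} (hτ : |τ| ≤ H)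
    (y : Vec d) (M : ℕ) (ω : Ω) :
    U b r τ y ω ^ M * (ENNReal.ofReal (2 * r) * (ENNReal.ofReal (r ^ d) * vb d)) ≤
      FF b H (3 * r) M ω := by
  unfold FF
  have hsub : Icc (τ - r) (τ + r) ⊆ Icc (-(H + 1)) (H + 1) := by
    intro t ht
    rw [mem_Icc] at ht ⊢
    obtain ⟨h1, h2⟩ := abs_le.1 hτ
    constructor <;> linarith [ht.1, ht.2]
  calc U b r τ y ω ^ M * (ENNReal.ofReal (2 * r) * (ENNReal.ofReal (r ^ d) * vb d))
      = ∫⁻ _t in Icc (τ - r) (τ + r), ∫⁻ _z in closedBall y r, U b r τ y ω ^ M := by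
        rw [setLIntegral_const, setLIntegral_const, vol_cb y hr.le, Real.volume_Icc]
        have : τ + r - (τ - r) = 2 * r := by ring
        rw [this]
        ring
    _ ≤ ∫⁻ t in Icc (τ - r) (τ + r), ∫⁻ z in closedBall y r, U b (3 * r) t z ω ^ M := by
        apply setLIntegral_mono' measurableSet_Icc
        intro t ht
        apply setLIntegral_mono' measurableSet_closedBall
        intro z hz
        gcongr
        apply U_mono
        · simpa [dist_eq_norm] using hz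
        · rw [abs_le]
          rw [mem_Icc] at ht
          constructor <;> linarith [ht.1, ht.2]
    _ ≤ ∫⁻ t in Icc (τ - r) (τ + r), ∫⁻ z, U b (3 * r) t z ω ^ M := by
        apply lintegral_mono
        intro t
        exact setLIntegral_le_lintegral _ _
    _ ≤ _ := lintegral_mono_set hsub

theorem E_FF {P : Measure Ω} [IsProbabilityMeasure P] {b : Ω → Vec d → Vec d}
    (hb : Measurable (fun z : Ω × Vec d => b z.1 z.2)) {κ α : ℝ} (hκ : 0 < κ) (hκ1 : κ ≤ 1)
    (hα : 0 ≤ α) (hαd : α ≤ d) (hL : LND P κ α b) (k : ℕ) (H : ℝ) (m : ℕ) :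
    ∫⁻ ω, FF b H (3 * (1 / 2) ^ k) (m + 1) ω ∂P ≤
      SS d κ α k ^ m * (m.factorial : ℝ≥0∞) * (ENNReal.ofReal (2 * (H + 1)) *
        (vb d * (ENNReal.ofReal ((3 * (1 / 2) ^ k) ^ d) * vb d))) := by
  set R : ℝ := 3 * (1 / 2) ^ k with hR
  have hR0 : 0 ≤ R := by positivity
  unfold FF
  have h := (measurable_U hb R).pow_const (m + 1)
  have h1 : Measurable (fun q : (Ω × ℝ) × Vec d => U b R q.1.2 q.2 q.1.1 ^ (m + 1)) := by
    have hg : Measurable (fun q : (Ω × ℝ) × Vec d => (((q.2, q.1.2), q.1.1) : (Vec d × ℝ) × Ω)) :=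
      (measurable_snd.prodMk (measurable_snd.comp measurable_fst)).prodMk
        (measurable_fst.comp measurable_fst)
    have h0 := h.comp hg
    exact h0
  have h2 : Measurable (fun q : Ω × ℝ => ∫⁻ y, U b R q.2 y q.1 ^ (m + 1)) := h1.lintegral_prod_right'
  rw [lintegral_lintegral_swap h2.aemeasurable]
  calc ∫⁻ τ in Icc (-(H + 1)) (H + 1), ∫⁻ ω, (∫⁻ y, U b R τ y ω ^ (m + 1)) ∂P
      ≤ ∫⁻ _τ in Icc (-(H + 1)) (H + 1), SS d κ α k ^ m * (m.factorial : ℝ≥0∞) *
          (vb d * (ENNReal.ofReal (R ^ d) * vb d)) := by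
        apply lintegral_mono
        intro τ
        have h3 : Measurable (fun q : Ω × Vec d => U b R τ q.2 q.1) := by
          have hg : Measurable (fun q : Ω × Vec d => (((q.2, τ), q.1) : (Vec d × ℝ) × Ω)) :=
            (measurable_snd.prodMk measurable_const).prodMk measurable_fst
          have h0 := (measurable_U hb R).comp hg
          exact h0
        simp only
        calc ∫⁻ ω, (∫⁻ y, U b R τ y ω ^ (m + 1)) ∂P
            = ∫⁻ y, ∫⁻ ω, U b R τ y ω ^ (m + 1) ∂P :=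
              lintegral_lintegral_swap (h3.pow_const _).aemeasurable
          _ ≤ ∫⁻ y, SS d κ α k ^ m * (m.factorial : ℝ≥0∞) * ∫⁻ ω, U b R τ y ω ∂P := by
              apply lintegral_mono
              intro y
              exact moments hb hκ hκ1 hα hαd hL k τ y m
          _ = SS d κ α k ^ m * (m.factorial : ℝ≥0∞) * ∫⁻ y, ∫⁻ ω, U b R τ y ω ∂P := by
              rw [lintegral_const_mul]
              have h4 : Measurable (fun q : Vec d × Ω => U b R τ q.1 q.2) := by
                have hg : Measurable (fun q : Vec d × Ω => (((q.1, τ), q.2) : (Vec d × ℝ) × Ω)) :=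
                  (measurable_fst.prodMk measurable_const).prodMk measurable_snd
                have h0 := (measurable_U hb R).comp hg
                exact h0
              exact h4.lintegral_prod_right'
          _ = SS d κ α k ^ m * (m.factorial : ℝ≥0∞) * ∫⁻ ω, (∫⁻ y, U b R τ y ω) ∂P := by
              congr 1
              exact (lintegral_lintegral_swap h3.aemeasurable).symm
          _ = SS d κ α k ^ m * (m.factorial : ℝ≥0∞) * (vb d * (ENNReal.ofReal (R ^ d) * vb d)) := by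
              simp only [int_U hb hR0]
              rw [lintegral_const, measure_univ, mul_one]
    _ = _ := by
        rw [setLIntegral_const, Real.volume_Icc]
        have : H + 1 - -(H + 1) = 2 * (H + 1) := by ring
        rw [this]
        ring

theorem SS_ne_top (κ α : ℝ) (k : ℕ) : SS d κ α k ≠ ∞ := by
  unfold SS
  apply ENNReal.mul_ne_top
  · exact ENNReal.add_ne_top.2 ⟨ENNReal.natCast_ne_top k, by simp⟩
  · exact ENNReal.mul_ne_top ENNReal.ofReal_ne_top (vb_ne_top d)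

theorem le_SS {κ α : ℝ} (hκ : 0 < κ) (hκ1 : κ ≤ 1) (hα : 0 ≤ α) (hαd : α ≤ d) (k : ℕ) :
    ENNReal.ofReal (((1 / 2 : ℝ) ^ k) ^ d) * vb d ≤ SS d κ α k := by
  have hp : (0 : ℝ) < (1 / 2) ^ k := by positivity
  have hp1 : (1 / 2 : ℝ) ^ k ≤ 1 := pow_le_one₀ (by norm_num) (by norm_num)
  unfold SS
  calc ENNReal.ofReal (((1 / 2 : ℝ) ^ k) ^ d) * vb d
      ≤ ENNReal.ofReal ((6 * (1 / 2) ^ k / κ) ^ α) * vb d := by
        gcongr
        calc ((1 / 2 : ℝ) ^ k) ^ d ≤ ((1 / 2 : ℝ) ^ k) ^ α := by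
              rw [← Real.rpow_natCast ((1 / 2 : ℝ) ^ k) d]
              exact Real.rpow_le_rpow_of_exponent_ge hp hp1 hαd
          _ ≤ _ := by
              apply Real.rpow_le_rpow hp.le _ hα
              rw [le_div_iff₀ hκ]
              nlinarith
    _ ≤ ((k : ℝ≥0∞) + 2) * (ENNReal.ofReal ((6 * (1 / 2) ^ k / κ) ^ α) * vb d) := by
        nth_rewrite 1 [← one_mul (ENNReal.ofReal ((6 * (1 / 2) ^ k / κ) ^ α) * vb d)]
        gcongr
        calc (1 : ℝ≥0∞) ≤ 2 := by norm_num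
          _ ≤ _ := le_add_self

/-- The level. -/
noncomputable def lam (d : ℕ) (κ α : ℝ) (k m : ℕ) : ℝ≥0∞ :=
  ENNReal.ofReal (Real.exp 1 * (m + 1)) * SS d κ α k

/-- The exceptional event. -/
def bad (b : Ω → Vec d → Vec d) (κ α H : ℝ) (k m : ℕ) : Set Ω :=
  {ω | lam d κ α k m ^ (m + 1) * (ENNReal.ofReal (2 * (1 / 2) ^ k) *
    (ENNReal.ofReal (((1 / 2) ^ k) ^ d) * vb d)) ≤ FF b H (3 * (1 / 2) ^ k) (m + 1) ω}

theorem measurableSet_bad {b : Ω → Vec d → Vec d}
    (hb : Measurable (fun z : Ω × Vec d => b z.1 z.2)) (κ α H : ℝ) (k m : ℕ) :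
    MeasurableSet (bad b κ α H k m) :=
  measurableSet_le measurable_const (measurable_FF hb _ _ _)

theorem good_le {b : Ω → Vec d → Vec d} {κ α H : ℝ} {k m : ℕ} {ω : Ω}
    (h : ω ∉ bad b κ α H k m) {τ : ℝ} (hτ : |τ| ≤ H) (y : Vec d) :
    U b ((1 / 2) ^ k) τ y ω ≤ lam d κ α k m := by
  have hp : (0 : ℝ) < (1 / 2) ^ k := by positivity
  have hp1 : (1 / 2 : ℝ) ^ k ≤ 1 := pow_le_one₀ (by norm_num) (by norm_num)
  by_contra hcon
  rw [not_le] at hcon
  apply h
  unfold bad
  rw [mem_setOf_eq]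
  refine le_trans ?_ (le_FF hp hp1 hτ y (m + 1) ω)
  gcongr

theorem P_bad {P : Measure Ω} [IsProbabilityMeasure P] {b : Ω → Vec d → Vec d}
    (hb : Measurable (fun z : Ω × Vec d => b z.1 z.2)) {κ α : ℝ} (hκ : 0 < κ) (hκ1 : κ ≤ 1)
    (hα : 0 ≤ α) (hαd : α ≤ d) (hL : LND P κ α b) (k : ℕ) {H : ℝ} (hH : 0 ≤ H) (m : ℕ) :
    P (bad b κ α H k m) ≤
      ENNReal.ofReal (Real.exp (-(m + 1)) * ((H + 1) * 3 ^ d) * (2 ^ k) ^ (d + 1)) := by
  have hp : (0 : ℝ) < (1 / 2) ^ k := by positivity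
  set r : ℝ := (1 / 2) ^ k with hr
  set X : ℝ≥0∞ := lam d κ α k m ^ (m + 1) * (ENNReal.ofReal (2 * r) *
    (ENNReal.ofReal (r ^ d) * vb d)) with hX
  have hS0 : SS d κ α k ≠ 0 := by
    have h := le_SS (d := d) hκ hκ1 hα hαd k
    intro h0
    rw [h0] at h
    have h2 : ENNReal.ofReal (((1 / 2 : ℝ) ^ k) ^ d) * vb d = 0 := le_antisymm h zero_le
    rcases mul_eq_zero.1 h2 with h3 | h3
    · rw [ENNReal.ofReal_eq_zero] at h3
      have : (0 : ℝ) < ((1 / 2) ^ k) ^ d := by positivity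
      linarith
    · exact vb_ne_zero d h3
  have hSt := SS_ne_top (d := d) κ α k
  have hlam0 : lam d κ α k m ≠ 0 := by
    unfold lam
    apply mul_ne_zero _ hS0
    rw [ne_eq, ENNReal.ofReal_eq_zero, not_le]
    positivity
  have hlamt : lam d κ α k m ≠ ∞ := ENNReal.mul_ne_top ENNReal.ofReal_ne_top hSt
  have hX0 : X ≠ 0 := by
    rw [hX]
    apply mul_ne_zero (pow_ne_zero _ hlam0)
    apply mul_ne_zero
    · rw [ne_eq, ENNReal.ofReal_eq_zero, not_le]; positivity
    · apply mul_ne_zero _ (vb_ne_zero d)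
      rw [ne_eq, ENNReal.ofReal_eq_zero, not_le]; positivity
  have hXt : X ≠ ∞ := by
    rw [hX]
    apply ENNReal.mul_ne_top (ENNReal.pow_ne_top hlamt)
    exact ENNReal.mul_ne_top ENNReal.ofReal_ne_top
      (ENNReal.mul_ne_top ENNReal.ofReal_ne_top (vb_ne_top d))
  have h1 : X * P (bad b κ α H k m) ≤ ∫⁻ ω, FF b H (3 * r) (m + 1) ω ∂P :=
    mul_meas_ge_le_lintegral (measurable_FF hb _ _ _) X
  have h2 := E_FF hb hκ hκ1 hα hαd hL k H m
  rw [← hr] at h2
  have h3 : SS d κ α k ^ m * (m.factorial : ℝ≥0∞) * (ENNReal.ofReal (2 * (H + 1)) *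
        (vb d * (ENNReal.ofReal ((3 * r) ^ d) * vb d))) ≤
      X * ENNReal.ofReal (Real.exp (-(m + 1)) * ((H + 1) * 3 ^ d) * (2 ^ k) ^ (d + 1)) := by
    have e1 : X * ENNReal.ofReal (Real.exp (-(m + 1)) * ((H + 1) * 3 ^ d) * (2 ^ k) ^ (d + 1)) =
        SS d κ α k ^ m * SS d κ α k * vb d *
          ENNReal.ofReal ((Real.exp 1 * (m + 1)) ^ (m + 1) * (2 * r * r ^ d) *
            (Real.exp (-(m + 1)) * ((H + 1) * 3 ^ d) * (2 ^ k) ^ (d + 1))) := by
      rw [hX]
      unfold lam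
      rw [mul_pow, ← ENNReal.ofReal_pow (by positivity), ENNReal.ofReal_mul (p := (Real.exp 1 * (m + 1)) ^ (m + 1) * (2 * r * r ^ d)) (by positivity),
        ENNReal.ofReal_mul (p := (Real.exp 1 * (m + 1)) ^ (m + 1)) (by positivity),
        ENNReal.ofReal_mul (p := 2 * r) (by positivity), pow_succ (SS d κ α k)]
      ring
    have e2 : (Real.exp 1 * (m + 1)) ^ (m + 1) * (2 * r * r ^ d) *
            (Real.exp (-(m + 1)) * ((H + 1) * 3 ^ d) * (2 ^ k) ^ (d + 1)) =
          ((m : ℝ) + 1) ^ (m + 1) * (2 * (H + 1)) * 3 ^ d := by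
      have e3 : Real.exp (-((m : ℝ) + 1)) = ((Real.exp 1) ^ (m + 1))⁻¹ := by
        rw [Real.exp_neg, ← Real.exp_nat_mul]
        congr 2
        push_cast
        ring
      have e4 : r * 2 ^ k = 1 := by
        rw [hr, ← mul_pow]; norm_num
      have e5 : 2 * r * r ^ d * (2 ^ k) ^ (d + 1) = 2 := by
        calc 2 * r * r ^ d * (2 ^ k) ^ (d + 1) = 2 * (r * 2 ^ k) ^ (d + 1) := by ring
          _ = 2 := by rw [e4]; simp
      rw [e3, mul_pow]
      have e6 : (Real.exp 1) ^ (m + 1) ≠ 0 := by positivity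
      calc (Real.exp 1) ^ (m + 1) * ((m : ℝ) + 1) ^ (m + 1) * (2 * r * r ^ d) *
            (((Real.exp 1) ^ (m + 1))⁻¹ * ((H + 1) * 3 ^ d) * (2 ^ k) ^ (d + 1))
          = ((Real.exp 1) ^ (m + 1) * ((Real.exp 1) ^ (m + 1))⁻¹) * ((m : ℝ) + 1) ^ (m + 1) *
              ((H + 1) * 3 ^ d) * (2 * r * r ^ d * (2 ^ k) ^ (d + 1)) := by ring
        _ = _ := by rw [mul_inv_cancel₀ e6, e5]; ring
    rw [e1, e2]
    calc SS d κ α k ^ m * (m.factorial : ℝ≥0∞) * (ENNReal.ofReal (2 * (H + 1)) *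
          (vb d * (ENNReal.ofReal ((3 * r) ^ d) * vb d)))
        = SS d κ α k ^ m * (ENNReal.ofReal (r ^ d) * vb d) * vb d *
          (ENNReal.ofReal ((m.factorial : ℝ) * (2 * (H + 1)) * 3 ^ d)) := by
          rw [mul_pow, ENNReal.ofReal_mul (p := 3 ^ d) (by positivity),
            ENNReal.ofReal_mul (p := (m.factorial : ℝ) * (2 * (H + 1))) (by positivity),
            ENNReal.ofReal_mul (p := (m.factorial : ℝ)) (by positivity), ENNReal.ofReal_natCast]
          ring
      _ ≤ _ := by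
          have h7 := le_SS (d := d) hκ hκ1 hα hαd k
          have h8 : (m.factorial : ℝ) ≤ ((m : ℝ) + 1) ^ (m + 1) := by
            calc (m.factorial : ℝ) ≤ (m : ℝ) ^ m := by exact_mod_cast Nat.factorial_le_pow m
              _ ≤ ((m : ℝ) + 1) ^ m := by gcongr; linarith
              _ ≤ ((m : ℝ) + 1) ^ (m + 1) := by
                  apply pow_le_pow_right₀ _ (Nat.le_succ m)
                  have : (0 : ℝ) ≤ m := by positivity
                  linarith
          gcongr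
  have h4 : X * P (bad b κ α H k m) ≤
      X * ENNReal.ofReal (Real.exp (-(m + 1)) * ((H + 1) * 3 ^ d) * (2 ^ k) ^ (d + 1)) :=
    h1.trans (h2.trans h3)
  exact (ENNReal.mul_le_mul_iff_right hX0 hXt).1 h4

end Pool.Agent.W2helper36.LN
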